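import Mathlib

set_option autoImplicit false

/-! The rank of the abelianisation. -/

namespace Pool.Agent.Y59.RK

open TensorProduct

/-- The dimension of `G / [G, G] ⊗ ℚ`, as a cardinal. -/
noncomputable def abRk (G : Type) [Group G] : Cardinal :=
  Module.rank ℚ (TensorProduct ℤ ℚ (Additive (Abelianization G)))

theorem abRk_congr {G H : Type} [Group G] [Group H] (e : G ≃* H) : abRk G = abRk H := by
  let e1 : Abelianization G ≃* Abelianization H := e.abelianizationCongr
  let e2 : Additive (Abelianization G) ≃+ Additive (Abelianization H) := e1.toAdditive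
  exact LinearEquiv.rank_eq (TensorProduct.AlgebraTensorModule.congr (LinearEquiv.refl ℚ ℚ)
    e2.toIntLinearEquiv)

theorem abRk_pi (m : ℕ) : abRk (Multiplicative (Fin m → ℤ)) = m := by
  let e1 : Multiplicative (Fin m → ℤ) ≃* Abelianization (Multiplicative (Fin m → ℤ)) :=
    Abelianization.equivOfComm
  let e2 : (Fin m → ℤ) ≃+ Additive (Abelianization (Multiplicative (Fin m → ℤ))) :=
    MulEquiv.toAdditiveRight e1
  have h1 : abRk (Multiplicative (Fin m → ℤ)) =
      Module.rank ℚ (TensorProduct ℤ ℚ (Fin m → ℤ)) :=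
    (LinearEquiv.rank_eq (TensorProduct.AlgebraTensorModule.congr (LinearEquiv.refl ℚ ℚ)
      e2.toIntLinearEquiv)).symm
  rw [h1, Module.rank_baseChange]
  simp

end Pool.Agent.Y59.RK
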