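import Mathlib
import Pool.Agent.H476R3.Diag

set_option autoImplicit false

/-! A diagram group isomorphic to `ℤ`. -/

namespace Pool.Agent.Y59.RK

open Pool.Agent.H476R3.Diag

/-- the relations `0 = 1`, `1 = 2`, `2 = 0` -/
def tri : List (List ℕ × List ℕ) := [([0], [1]), ([1], [2]), ([2], [0])]

/-- number of passages through `0 = 1` of an edge -/
def c1 (e : Edge ℕ) : ℤ := if e.r = ([0], [1]) then (if e.fwd then 1 else -1) else 0

/-- number of passages of a path -/
def cc (L : List (Edge ℕ)) : ℤ := (L.map c1).sum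

theorem c1_inv (e : Edge ℕ) : c1 e.inv = - c1 e := by
  unfold c1
  rcases e with ⟨a, r, b, f⟩
  cases f <;> simp [Edge.inv] <;> split_ifs <;> simp

theorem cc_append (L L' : List (Edge ℕ)) : cc (L ++ L') = cc L + cc L' := by
  simp [cc]

theorem cc_cons (e : Edge ℕ) (L : List (Edge ℕ)) : cc (e :: L) = c1 e + cc L := by
  simp [cc]

theorem cc_elem {L L' : List (Edge ℕ)} (h : Elem L L') : cc L = cc L' := by
  cases h with
  | cancel L₁ e L₂ =>
    rw [cc_append, cc_cons, cc_cons, c1_inv, cc_append]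
    ring
  | square L₁ a r b s c p q L₂ =>
    rw [cc_append, cc_cons, cc_cons, cc_append, cc_cons, cc_cons]
    simp only [c1]
    ring

theorem cc_htpy {R : Set (List ℕ × List ℕ)} {u v : List ℕ} {L L' : List (Edge ℕ)}
    (h : Htpy R u v L L') : cc L = cc L' := by
  induction h with
  | refl L h => rfl
  | elem L L' h h' e => exact cc_elem e
  | symm L L' _ ih => exact ih.symm
  | trans L L' L'' _ _ ih ih' => exact ih.trans ih'

/-- the winding number -/
def chi (R : Set (List ℕ × List ℕ)) (w : List ℕ) : DiagramGroup R w →* Multiplicative ℤ where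
  toFun := Quotient.lift (fun L : Loop R w => Multiplicative.ofAdd (cc L.1))
    (fun _ _ h => congrArg Multiplicative.ofAdd (cc_htpy h))
  map_one' := rfl
  map_mul' := by
    intro a b
    obtain ⟨L, rfl⟩ := DiagramGroup.exists_rep a
    obtain ⟨L', rfl⟩ := DiagramGroup.exists_rep b
    change Multiplicative.ofAdd (cc (L.1 ++ L'.1)) = Multiplicative.ofAdd (cc L.1 + cc L'.1)
    rw [cc_append]

theorem chi_mk {R : Set (List ℕ × List ℕ)} {w : List ℕ} (L : Loop R w) :
    chi R w (DiagramGroup.mk L) = Multiplicative.ofAdd (cc L.1) := rfl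

abbrev RT : Set (List ℕ × List ℕ) := {r | r ∈ tri}

/-- the edge of the relation number `i` -/
def ed (r : List ℕ × List ℕ) (f : Bool) : Edge ℕ := ⟨[], r, [], f⟩

/-- the path in the tree from `0` to `x` -/
def tr : ℕ → List (Edge ℕ)
  | 0 => []
  | 1 => [ed ([2], [0]) false, ed ([1], [2]) false]
  | _ => [ed ([2], [0]) false]

theorem tr_path {x : ℕ} (hx : x < 3) : IsPath RT [0] (tr x) [x] := by
  interval_cases x
  · rfl
  · refine ⟨by simp [ed, tri], rfl, ⟨by simp [ed, tri], rfl, rfl⟩⟩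
  · exact ⟨by simp [ed, tri], rfl, rfl⟩

/-- the loop of a path between letters -/
def lp {x y : ℕ} (hx : x < 3) (hy : y < 3) {L : List (Edge ℕ)} (h : IsPath RT [x] L [y]) :
    DiagramGroup RT [0] :=
  DiagramGroup.mk ⟨tr x ++ L ++ pinv (tr y), ((tr_path hx).append h).append (tr_path hy).pinv⟩

/-- the generator -/
def zg : DiagramGroup RT [0] :=
  DiagramGroup.mk ⟨[ed ([0], [1]) true, ed ([1], [2]) true, ed ([2], [0]) true],
    ⟨by simp [ed, tri], rfl, ⟨by simp [ed, tri], rfl, ⟨by simp [ed, tri], rfl, rfl⟩⟩⟩⟩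

theorem chi_zg : chi RT [0] zg = Multiplicative.ofAdd 1 := by
  change Multiplicative.ofAdd (cc [ed ([0], [1]) true, ed ([1], [2]) true, ed ([2], [0]) true]) = _
  simp [cc, c1, ed]

theorem lp_append {x y z : ℕ} (hx : x < 3) (hy : y < 3) (hz : z < 3) {L L' : List (Edge ℕ)}
    (h : IsPath RT [x] L [y]) (h' : IsPath RT [y] L' [z]) :
    lp hx hz (h.append h') = lp hx hy h * lp hy hz h' := by
  change DiagramGroup.mk ⟨tr x ++ (L ++ L') ++ pinv (tr z), _⟩ =
    DiagramGroup.mk ⟨(tr x ++ L ++ pinv (tr y)) ++ (tr y ++ L' ++ pinv (tr z)), _⟩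
  refine DiagramGroup.mk_eq.2 (Htpy.symm _ _ ?_)
  have h1 : Htpy RT [y] [y] (pinv (tr y) ++ tr y) [] := htpy_pinv_mul (tr_path hy)
  have h2 := (h1.append_left ((tr_path hx).append h)).append_right (h'.append (tr_path hz).pinv)
  simpa only [List.append_assoc, List.append_nil, List.nil_append] using h2

/-- the edges of the component -/
theorem edge_cases {e : Edge ℕ} {x : ℕ} (hr : e.r ∈ RT) (hs : e.src = [x]) :
    (x = 0 ∧ e = ed ([0], [1]) true) ∨ (x = 1 ∧ e = ed ([0], [1]) false) ∨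
    (x = 1 ∧ e = ed ([1], [2]) true) ∨ (x = 2 ∧ e = ed ([1], [2]) false) ∨
    (x = 2 ∧ e = ed ([2], [0]) true) ∨ (x = 0 ∧ e = ed ([2], [0]) false) := by
  obtain ⟨a, r, b, f⟩ := e
  have hr' : r = ([0], [1]) ∨ r = ([1], [2]) ∨ r = ([2], [0]) := by
    simpa [tri] using hr
  have key : ∀ m : ℕ, a ++ [m] ++ b = [x] → a = [] ∧ b = [] ∧ x = m := by
    intro m hm
    have hl := congrArg List.length hm
    simp only [List.length_append, List.length_cons, List.length_nil] at hl
    have ha : a = [] := List.length_eq_zero_iff.1 (by omega)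
    have hb : b = [] := List.length_eq_zero_iff.1 (by omega)
    subst ha
    subst hb
    simp only [List.nil_append, List.append_nil, List.cons.injEq, and_true] at hm
    exact ⟨rfl, rfl, hm.symm⟩
  rcases hr' with rfl | rfl | rfl <;> cases f <;>
    simp only [Edge.src, side, Bool.false_eq_true, if_true, if_false] at hs <;>
    obtain ⟨rfl, rfl, rfl⟩ := key _ hs <;> simp [ed]

theorem lp_one {x : ℕ} (hx : x < 3) : lp hx hx (L := []) rfl = 1 := by
  rw [DiagramGroup.mk_one]
  refine DiagramGroup.mk_eq.2 ?_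
  have := htpy_mul_pinv (tr_path hx)
  simpa using this

theorem cancel2 (r : List ℕ × List ℕ) (f : Bool) {w : List ℕ}
    (h : IsPath RT w [ed r f, ed r (!f)] w) : Htpy RT w w [ed r f, ed r (!f)] [] :=
  Htpy.elem _ _ h rfl (Elem.cancel [] (ed r f) [])

theorem mk_congr {L L' : List (Edge ℕ)} (h : IsPath RT [0] L [0]) (h' : IsPath RT [0] L' [0])
    (e : L = L') : (DiagramGroup.mk ⟨L, h⟩ : DiagramGroup RT [0]) = DiagramGroup.mk ⟨L', h'⟩ := by
  subst e
  rfl

theorem path_lem {L : List (Edge ℕ)} : ∀ {x : ℕ} (hx : x < 3) {z : List ℕ},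
    IsPath RT [x] L z → ∃ (y : ℕ) (hy : y < 3) (hz : z = [y]) (h : IsPath RT [x] L [y]),
      lp hx hy h = zg ^ cc L := by
  induction L with
  | nil =>
    intro x hx z h
    have : [x] = z := h
    subst this
    refine ⟨x, hx, rfl, rfl, ?_⟩
    rw [lp_one]
    simp [cc]
  | cons e L ih =>
    intro x hx z h
    obtain ⟨h1, h2, h3⟩ := h
    have step : ∃ (t : ℕ) (ht : t < 3) (_ : e.tgt = [t]) (hp : IsPath RT [x] [e] [t]),
        lp hx ht hp = zg ^ c1 e := by
      rcases edge_cases h1 h2 with ⟨rfl, rfl⟩ | ⟨rfl, rfl⟩ | ⟨rfl, rfl⟩ | ⟨rfl, rfl⟩ |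
        ⟨rfl, rfl⟩ | ⟨rfl, rfl⟩
      · refine ⟨1, by norm_num, rfl, ⟨by simp [ed, tri], rfl, rfl⟩, ?_⟩
        have hc : c1 (ed ([0], [1]) true) = 1 := by simp [c1, ed]
        rw [hc, zpow_one]
        exact mk_congr _ _ rfl
      · refine ⟨0, by norm_num, rfl, ⟨by simp [ed, tri], rfl, rfl⟩, ?_⟩
        have hc : c1 (ed ([0], [1]) false) = -1 := by simp [c1, ed]
        rw [hc, zpow_neg_one]
        exact mk_congr _ _ rfl
      · refine ⟨2, by norm_num, rfl, ⟨by simp [ed, tri], rfl, rfl⟩, ?_⟩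
        have hc : c1 (ed ([1], [2]) true) = 0 := by simp [c1, ed]
        rw [hc, zpow_zero]
        have hp : IsPath RT [0] (tr 2) [2] := tr_path (by norm_num)
        have k1 : Htpy RT [2] [2] [ed ([1], [2]) false, ed ([1], [2]) (!false)] [] :=
          cancel2 _ _ ⟨by simp [ed, tri], rfl, ⟨by simp [ed, tri], rfl, rfl⟩⟩
        have k2 := (k1.append_left hp).append_right hp.pinv
        rw [List.append_nil] at k2
        exact DiagramGroup.mk_eq.2 (Htpy.trans _ _ _ k2 (htpy_mul_pinv hp))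
      · refine ⟨1, by norm_num, rfl, ⟨by simp [ed, tri], rfl, rfl⟩, ?_⟩
        have hc : c1 (ed ([1], [2]) false) = 0 := by simp [c1, ed]
        rw [hc, zpow_zero]
        have hp : IsPath RT [0] (tr 1) [1] := tr_path (by norm_num)
        exact DiagramGroup.mk_eq.2 (htpy_mul_pinv hp)
      · refine ⟨0, by norm_num, rfl, ⟨by simp [ed, tri], rfl, rfl⟩, ?_⟩
        have hc : c1 (ed ([2], [0]) true) = 0 := by simp [c1, ed]
        rw [hc, zpow_zero]
        have hp : IsPath RT [0] (tr 2) [2] := tr_path (by norm_num)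
        exact DiagramGroup.mk_eq.2 (htpy_mul_pinv hp)
      · refine ⟨2, by norm_num, rfl, ⟨by simp [ed, tri], rfl, rfl⟩, ?_⟩
        have hc : c1 (ed ([2], [0]) false) = 0 := by simp [c1, ed]
        rw [hc, zpow_zero]
        have hp : IsPath RT [0] (tr 2) [2] := tr_path (by norm_num)
        exact DiagramGroup.mk_eq.2 (htpy_mul_pinv hp)
    obtain ⟨t, ht, hte, hp, hlp⟩ := step
    rw [hte] at h3
    obtain ⟨y, hy, hz, hq, hlq⟩ := ih ht h3
    refine ⟨y, hy, hz, hp.append hq, ?_⟩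
    have k1 := lp_append hx ht hy hp hq
    rw [cc_cons, zpow_add, ← hlp, ← hlq]
    exact k1

theorem all_pow (g : DiagramGroup RT [0]) :
    g = zg ^ (Multiplicative.toAdd (chi RT [0] g)) := by
  obtain ⟨L, rfl⟩ := DiagramGroup.exists_rep g
  obtain ⟨y, hy, hz, h, hl⟩ := path_lem (x := 0) (by norm_num) L.2
  have hy0 : y = 0 := by simpa using hz.symm
  subst hy0
  rw [chi_mk, toAdd_ofAdd, ← hl]
  exact mk_congr L.2 _ (by simp [tr])

/-- The diagram group of `0 = 1 = 2 = 0` is infinite cyclic. -/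
theorem tri_iso : Nonempty (DiagramGroup {r | r ∈ tri} [0] ≃* Multiplicative ℤ) := by
  refine ⟨MulEquiv.ofBijective (chi RT [0]) ⟨?_, ?_⟩⟩
  · intro a b hab
    rw [all_pow a, all_pow b, hab]
  · intro n
    refine ⟨zg ^ (Multiplicative.toAdd n), ?_⟩
    rw [map_zpow, chi_zg, ← ofAdd_zsmul]
    simp

end Pool.Agent.Y59.RK
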