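import Mathlib
import Pool.Agent.Y59.RK.Tri
import Pool.Agent.Y59.RK.Rank

set_option autoImplicit false

/-! A diagram group of infinite rank. -/

namespace Pool.Agent.Y59.RK

open Pool.Agent.H476R3.Diag TensorProduct

theorem rank_le_of_surjective_rk {A B : Type} [AddCommGroup A] [AddCommGroup B] {f : A →ₗ[ℤ] B}
    (hf : Function.Surjective f) : Module.rank ℚ (TensorProduct ℤ ℚ B) ≤
      Module.rank ℚ (TensorProduct ℤ ℚ A) :=
  LinearMap.rank_le_of_surjective (f.baseChange ℚ) (by
    have := LinearMap.lTensor_surjective ℚ hf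
    exact this)

/-- A group with surjections to `ℤ ^ n` for all `n` has infinite rank. -/
theorem le_abRk {G : Type} [Group G] {n : ℕ} (f : G →* Multiplicative (Fin n → ℤ))
    (hf : Function.Surjective f) : (n : Cardinal) ≤ abRk G := by
  rw [← abRk_pi n]
  let f1 : Abelianization G →* Abelianization (Multiplicative (Fin n → ℤ)) :=
    Abelianization.map f
  have h1 : ∀ y : Abelianization (Multiplicative (Fin n → ℤ)), ∃ x, f1 x = y := by
    intro y
    obtain ⟨z, hz⟩ := QuotientGroup.mk_surjective y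
    obtain ⟨x, hx⟩ := hf z
    refine ⟨Abelianization.of x, ?_⟩
    have h3 : f1 (Abelianization.of x) = Abelianization.of (f x) := Abelianization.map_of f x
    rw [h3, hx]
    exact hz
  have h2 : Function.Surjective (MonoidHom.toAdditive f1).toIntLinearMap := by
    intro y
    obtain ⟨x, hx⟩ := h1 (Additive.toMul y)
    refine ⟨Additive.ofMul x, ?_⟩
    change Additive.ofMul (f1 x) = y
    rw [hx]
    rfl
  exact rank_le_of_surjective_rk h2

/-- the relations `0 = 01`, `1 = 2`, `2 = 3`, `3 = 1` -/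
def rin : List (List ℕ × List ℕ) := [([0], [0, 1]), ([1], [2]), ([2], [3]), ([3], [1])]

abbrev RN : Set (List ℕ × List ℕ) := {r | r ∈ rin}

/-- passages through `1 = 2` with right context of length `j` -/
def cj (j : ℕ) (e : Edge ℕ) : ℤ :=
  if e.r = ([1], [2]) ∧ e.b.length = j then (if e.fwd then 1 else -1) else 0

/-- their number on a path -/
def ccj (j : ℕ) (L : List (Edge ℕ)) : ℤ := (L.map (cj j)).sum

theorem cj_inv (j : ℕ) (e : Edge ℕ) : cj j e.inv = - cj j e := by
  unfold cj
  rcases e with ⟨a, r, b, f⟩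
  cases f <;> simp [Edge.inv] <;> split_ifs <;> simp

theorem ccj_append (j : ℕ) (L L' : List (Edge ℕ)) : ccj j (L ++ L') = ccj j L + ccj j L' := by
  simp [ccj]

theorem ccj_cons (j : ℕ) (e : Edge ℕ) (L : List (Edge ℕ)) :
    ccj j (e :: L) = cj j e + ccj j L := by
  simp [ccj]

/-- the words of the component -/
def Good (w : List ℕ) : Prop := ∃ t : List ℕ, w = 0 :: t ∧ 0 ∉ t

theorem good_edge {e : Edge ℕ} (hr : e.r ∈ RN) (h : Good e.src) : Good e.tgt := by
  obtain ⟨a, r, b, f⟩ := e
  obtain ⟨t, h1, h2⟩ := h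
  have hr' : r = ([0], [0, 1]) ∨ r = ([1], [2]) ∨ r = ([2], [3]) ∨ r = ([3], [1]) := by
    simpa [rin] using hr
  simp only [Edge.src, Edge.tgt] at h1 ⊢
  cases a with
  | nil =>
    rcases hr' with rfl | rfl | rfl | rfl <;> cases f <;> simp [side] at h1 ⊢
    · obtain rfl := h1
      exact ⟨b, rfl, fun h => h2 (List.mem_cons_of_mem _ h)⟩
    · obtain rfl := h1
      exact ⟨1 :: b, rfl, by simpa using h2⟩
  | cons x a =>
    simp only [List.cons_append, List.cons.injEq] at h1
    obtain ⟨rfl, rfl⟩ := h1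
    refine ⟨_, rfl, ?_⟩
    rcases hr' with rfl | rfl | rfl | rfl <;> cases f <;> simp [side] at h2 ⊢ <;> exact h2

theorem good_path {L : List (Edge ℕ)} : ∀ {u v : List ℕ}, IsPath RN u L v → Good u → Good v := by
  induction L with
  | nil => intro u v h hu; have : u = v := h; exact this ▸ hu
  | cons e L ih =>
    intro u v h hu
    obtain ⟨h1, h2, h3⟩ := h
    exact ih h3 (good_edge h1 (by rw [h2]; exact hu))

theorem ccj_elem (j : ℕ) {L L' : List (Edge ℕ)} {u v : List ℕ} (hp : IsPath RN u L v)
    (hu : Good u) (h : Elem L L') : ccj j L = ccj j L' := by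
  cases h with
  | cancel L₁ e L₂ =>
    rw [ccj_append, ccj_cons, ccj_cons, cj_inv, ccj_append]
    ring
  | square L₁ a r b s c p q L₂ =>
    obtain ⟨w, q1, q2⟩ := isPath_append.1 hp
    have hw := good_path q1 hu
    obtain ⟨q3, q4, q5, q6, q7⟩ := q2
    have hs : s = ([0], [0, 1]) ∨ s = ([1], [2]) ∨ s = ([2], [3]) ∨ s = ([3], [1]) := by
      simpa [rin] using q5
    have hr : r = ([0], [0, 1]) ∨ r = ([1], [2]) ∨ r = ([2], [3]) ∨ r = ([3], [1]) := by
      simpa [rin] using q3
    have hlen : (side s q).length = (side s (!q)).length := by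
      rcases hs with rfl | rfl | rfl | rfl
      · exfalso
        rw [← q4] at hw
        obtain ⟨t, h1, h2⟩ := hw
        simp only [Edge.src] at h1
        cases a with
        | nil =>
          rcases hr with rfl | rfl | rfl | rfl <;> cases p <;> simp [side] at h1 <;>
            (subst h1; apply h2; cases q <;> simp)
        | cons x a =>
          simp only [List.cons_append, List.cons.injEq] at h1
          obtain ⟨-, rfl⟩ := h1
          apply h2
          cases q <;> simp [side]
      all_goals cases q <;> simp [side]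
    rw [ccj_append, ccj_cons, ccj_cons, ccj_append, ccj_cons, ccj_cons]
    have e1 : cj j ⟨a, r, b ++ side s q ++ c, p⟩ = cj j ⟨a, r, b ++ side s (!q) ++ c, p⟩ := by
      simp only [cj, List.length_append, hlen]
    have e2 : cj j ⟨a ++ side r (!p) ++ b, s, c, q⟩ = cj j ⟨a ++ side r p ++ b, s, c, q⟩ := by
      simp only [cj]
    rw [e1, e2]
    ring

theorem ccj_htpy (j : ℕ) {u v : List ℕ} {L L' : List (Edge ℕ)} (hu : Good u)
    (h : Htpy RN u v L L') : ccj j L = ccj j L' := by
  induction h with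
  | refl L h => rfl
  | elem L L' h h' e => exact ccj_elem j h hu e
  | symm L L' _ ih => exact ih.symm
  | trans L L' L'' _ _ ih ih' => exact ih.trans ih'

theorem good0 : Good [0] := ⟨[], rfl, by simp⟩

/-- the homomorphism to `ℤ ^ n` -/
def chn (n : ℕ) : DiagramGroup RN [0] →* Multiplicative (Fin n → ℤ) where
  toFun := Quotient.lift (fun L : Loop RN [0] =>
      Multiplicative.ofAdd (fun j : Fin n => ccj j L.1))
    (fun _ _ h => congrArg Multiplicative.ofAdd (funext fun j => ccj_htpy j good0 h))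
  map_one' := rfl
  map_mul' := by
    intro a b
    obtain ⟨L, rfl⟩ := DiagramGroup.exists_rep a
    obtain ⟨L', rfl⟩ := DiagramGroup.exists_rep b
    change Multiplicative.ofAdd (fun j : Fin n => ccj j (L.1 ++ L'.1)) =
      Multiplicative.ofAdd (fun j : Fin n => ccj j L.1 + ccj j L'.1)
    simp only [ccj_append]

/-- the path from `0` to `0 1 ^ m` -/
def up : ℕ → List (Edge ℕ)
  | 0 => []
  | m + 1 => up m ++ [⟨[], ([0], [0, 1]), List.replicate m 1, true⟩]

theorem up_path (m : ℕ) : IsPath RN [0] (up m) (0 :: List.replicate m 1) := by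
  induction m with
  | zero => rfl
  | succ m ih =>
    refine ih.append ⟨by simp [rin], by simp [Edge.src, side], ?_⟩
    simp [Edge.tgt, side, isPath_nil, List.replicate_succ]

/-- the triangle with right context of length `m` -/
def tg (m : ℕ) : List (Edge ℕ) :=
  [⟨[0], ([1], [2]), List.replicate m 1, true⟩, ⟨[0], ([2], [3]), List.replicate m 1, true⟩,
    ⟨[0], ([3], [1]), List.replicate m 1, true⟩]

theorem tg_path (m : ℕ) : IsPath RN (0 :: List.replicate (m + 1) 1) (tg m)
    (0 :: List.replicate (m + 1) 1) := by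
  refine ⟨by simp [rin], by simp [Edge.src, side, List.replicate_succ],
    ⟨by simp [rin], by simp [Edge.src, Edge.tgt, side],
    ⟨by simp [rin], by simp [Edge.src, Edge.tgt, side], ?_⟩⟩⟩
  simp [Edge.tgt, side, isPath_nil, List.replicate_succ]

theorem ccj_pinv (j : ℕ) (L : List (Edge ℕ)) : ccj j (pinv L) = - ccj j L := by
  induction L with
  | nil => simp [ccj]
  | cons e L ih =>
    rw [pinv_cons, ccj_append, ih, ccj_cons, ccj_cons, cj_inv]
    simp only [ccj, List.map_nil, List.sum_nil]
    ring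

/-- the loop -/
def gl (m : ℕ) : DiagramGroup RN [0] :=
  DiagramGroup.mk ⟨up (m + 1) ++ tg m ++ pinv (up (m + 1)),
    ((up_path (m + 1)).append (tg_path m)).append (up_path (m + 1)).pinv⟩

theorem chn_gl (n : ℕ) (m : Fin n) :
    chn n (gl m) = Multiplicative.ofAdd (Pi.single m 1) := by
  change Multiplicative.ofAdd (fun j : Fin n =>
    ccj j (up ((m : ℕ) + 1) ++ tg m ++ pinv (up ((m : ℕ) + 1)))) = _
  congr 1
  funext j
  rw [ccj_append, ccj_append, ccj_pinv]
  have h1 : ccj j (tg m) = if (m : ℕ) = (j : ℕ) then 1 else 0 := by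
    simp [ccj, tg, cj]
  rw [h1]
  by_cases h : m = j
  · subst h
    simp
  · have h' : ¬ (m : ℕ) = (j : ℕ) := fun h' => h (Fin.ext h')
    rw [if_neg h', Pi.single_eq_of_ne (fun h'' => h h''.symm)]
    ring

theorem chn_surj (n : ℕ) : Function.Surjective (chn n) := by
  intro y
  have h : ∀ z : Fin n → ℤ, Multiplicative.ofAdd z ∈ (chn n).range := by
    intro z
    have hz : z = ∑ m : Fin n, z m • (Pi.single m (1 : ℤ) : Fin n → ℤ) := by
      rw [← Finset.univ_sum_single z]
      refine Finset.sum_congr rfl fun m _ => ?_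
      rw [Finset.univ_sum_single z, ← Pi.single_smul]
      simp
    rw [hz, ofAdd_sum]
    refine Subgroup.prod_mem _ fun m _ => ?_
    rw [ofAdd_zsmul, ← chn_gl]
    exact Subgroup.zpow_mem (chn n).range (MonoidHom.mem_range.2 ⟨gl m, rfl⟩) _
  obtain ⟨x, hx⟩ := h (Multiplicative.toAdd y)
  exact ⟨x, hx⟩

theorem inf_rank : Cardinal.aleph0 ≤ abRk (DiagramGroup {r | r ∈ rin} [0]) := by
  rw [Cardinal.aleph0_le]
  intro n
  exact le_abRk (chn n) (chn_surj n)

end Pool.Agent.Y59.RK
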