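import Mathlib
import Pool.Agent.Y59.RD.Fin

set_option autoImplicit false

/-! The main construction again, with proper presentations. -/

namespace Pool.Agent.H476R3.DiagMach.RD59

open Pool.Agent.Helper599.Core Pool.Agent.H476R3.Diag Relation
open Pool.Agent.Y59.RD (kap Data)

/-- The two sides of each relation are distinct, and no relation is listed with its reverse. -/
def Rev (F : List (List ℕ × List ℕ)) : Prop := ∀ r ∈ F, r.1 ≠ r.2 ∧ (r.2, r.1) ∉ F

variable {Q : Type} {M : Sys Q Bool} {code : Sym Q M.B → ℕ}

/-- words of length two with a state letter at its reading position -/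
def pd {Q : Type} {B : ℕ} : List (Sym Q B) → Bool
  | [x, y] => (x.act && !x.lft) || (y.act && y.lft)
  | _ => false

theorem pd_lhs {s y w : _} (h : dl M s y = some w) : pd (lhs s y) = true := by
  have hs : s.act = true := by
    cases s <;> cases y <;> first | rfl | (simp [dl] at h)
  unfold lhs
  cases hl : s.lft with
  | true => simp [pd, hs, hl]
  | false => simp [pd, hs, hl]

theorem pd_rep {B : ℕ} {Q : Type} (n : ℕ) (s : Sym Q B) (hs : s.lft = false) :
    pd (List.replicate n (.one : Sym Q B) ++ [s]) = false := by
  rcases n with _ | _ | n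
  · rfl
  · simp [pd, Sym.act, hs]
  · simp [List.replicate_succ, pd]

theorem pd_rep3 {B : ℕ} {Q : Type} (n : ℕ) (s t u : Sym Q B) :
    pd (List.replicate n (.one : Sym Q B) ++ [s, t, u]) = false := by
  rcases n with _ | n
  · rfl
  · simp only [List.replicate_succ, List.cons_append]
    cases hl : (List.replicate n (.one : Sym Q B) ++ [s, t, u]) with
    | nil => simp at hl
    | cons a l =>
      cases l with
      | nil =>
        have := congrArg List.length hl
        simp at this
      | cons b l => rfl

theorem pd_rhs {s y w : _} (h : dl M s y = some w) : pd w = false := by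
  cases s <;> cases y <;> first | (simp [dl] at h; done) | skip
  all_goals (simp only [dl] at h)
  all_goals try (split_ifs at h)
  all_goals try (simp only [Option.some.injEq, Option.map_eq_some_iff] at h)
  all_goals first
    | (subst h; rfl)
    | (subst h; exact pd_rep _ _ rfl)
    | (subst h; exact pd_rep3 _ _ _ _)
    | (obtain ⟨q', -, rfl⟩ := h; exact pd_rep3 _ _ _ _)

theorem rms_ne (hc : Function.Injective code) {r r' : List ℕ × List ℕ} (h : r ∈ RMs M code)
    (h' : r' ∈ RMs M code) : r.2 ≠ r'.1 := by
  obtain ⟨s, y, w, h1, rfl⟩ := h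
  obtain ⟨s', y', w', h1', rfl⟩ := h'
  intro e
  have e' : w = lhs s' y' := hc.list_map e
  have h2 := pd_rhs h1
  rw [e', pd_lhs h1'] at h2
  cases h2

/-- The main construction: `D(F, W n)` is isomorphic to the given diagram group if `u n` is defined
and trivial otherwise. -/
theorem mainP (k : ℕ) (F1 : List (List ℕ × List ℕ)) (w1 : List ℕ)
    (h1 : ∀ r ∈ F1, r.1 ≠ [] ∧ r.2 ≠ [] ∧ (∀ x ∈ r.1, x < k) ∧ (∀ x ∈ r.2, x < k))
    (hw1 : ∀ x ∈ w1, x < k) (hP : Rev F1) :
    ∃ (K : ℕ) (F : List (List ℕ × List ℕ)) (W : ℕ → List ℕ), Computable W ∧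
      (∀ r ∈ F, r.1 ≠ [] ∧ r.2 ≠ [] ∧ (∀ x ∈ r.1, x < K) ∧ (∀ x ∈ r.2, x < K)) ∧ Rev F ∧
      (∀ n, W n ≠ [] ∧ ∀ x ∈ W n, x < K) ∧
      ∀ n, ((Pool.Agent.Helper599.Source.u n).Dom →
          Nonempty (DiagramGroup {r | r ∈ F} (W n) ≃* DiagramGroup {r | r ∈ F1} w1)) ∧
        (¬ (Pool.Agent.Helper599.Source.u n).Dom →
          Subsingleton (DiagramGroup {r | r ∈ F} (W n))) := by
  classical
  obtain ⟨Q, hQ, M, q0, Nf, hN, hu⟩ := Pool.Agent.Helper599.Source.exists_sysU
  have hfin := sym_finite Q M.B
  obtain ⟨K0, ⟨e⟩⟩ := Finite.exists_equiv_fin (Sym Q M.B)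
  let code : Sym Q M.B → ℕ := fun s => k + 2 + (e s : ℕ)
  have hc : Function.Injective code := fun s t h => e.injective (Fin.ext (by
    have : k + 2 + (e s : ℕ) = k + 2 + (e t : ℕ) := h
    omega))
  have hk : ∀ s, k + 2 ≤ code s := fun s => Nat.le_add_right _ _
  have hK : ∀ s, code s < k + 2 + K0 := fun s => Nat.add_lt_add_left (e s).2 _
  have h1' : ∀ r ∈ {r | r ∈ F1}, ∀ f, side r f ≠ [] ∧ ∀ n ∈ side r f, n < k := by
    intro r hr f
    obtain ⟨a1, a2, a3, a4⟩ := h1 r hr
    cases f with
    | true => exact ⟨by simpa [side] using a1, by simpa [side] using a3⟩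
    | false => exact ⟨by simpa [side] using a2, by simpa [side] using a4⟩
  let D := dat q0 hc k {r | r ∈ F1} w1 h1' hw1 hk
  let FM : List (List ℕ × List ℕ) := (RMs_finite M code).toFinset.toList
  have hFM : ∀ ρ, ρ ∈ FM ↔ ρ ∈ RMs M code := by
    intro ρ
    simp [FM]
  let F : List (List ℕ × List ℕ) := D.brE :: (F1 ++ FM)
  have hF : {r | r ∈ F} = D.R := by
    ext ρ
    change ρ ∈ D.brE :: (F1 ++ FM) ↔ (ρ ∈ F1 ∨ ρ ∈ RMs M code ∨ ρ = D.brE)
    rw [List.mem_cons, List.mem_append, hFM]
    tauto
  let W : ℕ → List ℕ := fun n =>
    (cfg M q0 (Pool.Agent.Helper599.Source.ini (Nf n)) 0).map code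
  refine ⟨k + 2 + K0, F, W, ?_, ?_, ?_, ?_, ?_⟩
  · have hW : W = fun n => [code .dol, code (.R q0 (z0 M))] ++
        (List.range (Nf n)).map (fun _ => code .one) ++ [code .hsh, code .pct] := by
      funext n
      simp only [W]
      unfold cfg
      rw [replicate_eq]
      simp [Pool.Agent.Helper599.Source.ini]
    rw [hW]
    have h2 : Primrec (fun N : ℕ => [code .dol, code (.R q0 (z0 M))] ++
        (List.range N).map (fun _ => code .one) ++ [code .hsh, code .pct]) := by
      refine Primrec.list_append.comp (Primrec.list_append.comp (Primrec.const _) ?_)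
        (Primrec.const _)
      exact Primrec.list_map Primrec.list_range (Primrec.const _).to₂
    exact h2.to_comp.comp hN
  · intro r hr
    have hr' : r ∈ D.R := by rw [← hF]; exact hr
    have hside : ∀ f, side r f ≠ [] ∧ ∀ n ∈ side r f, n < k + 2 + K0 := by
      intro f
      rcases hr' with hr' | hr' | hr'
      · refine ⟨(h1' r hr' f).1, fun n hn => ?_⟩
        have := (h1' r hr' f).2 n hn
        omega
      · refine ⟨(side_mem q0 hr' f).1, fun n hn => ?_⟩
        obtain ⟨s, rfl⟩ := (side_mem q0 hr' f).2 n hn
        exact hK s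
      · subst hr'
        cases f with
        | true =>
          refine ⟨by simp [side, Data.brE, D, dat], fun n hn => ?_⟩
          have hn' : n ∈ ([code .X, code .pct] : List ℕ) := by
            simpa [side, Data.brE, D, dat] using hn
          simp only [List.mem_cons, List.not_mem_nil, or_false] at hn'
          rcases hn' with rfl | rfl <;> exact hK _
        | false =>
          refine ⟨by simp [side, Data.brE, kap], fun n hn => ?_⟩
          have hn' : n ∈ kap k w1 := by
            simpa [side, Data.brE, D, dat] using hn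
          unfold kap at hn'
          simp only [List.mem_cons, List.mem_append, List.not_mem_nil, or_false] at hn'
          rcases hn' with hn' | hn' | hn'
          · omega
          · have := hw1 n hn'; omega
          · omega
    refine ⟨by simpa [side] using (hside true).1, by simpa [side] using (hside false).1,
      by simpa [side] using (hside true).2, by simpa [side] using (hside false).2⟩
  · have hlow : ∀ r ∈ F1, ∀ x ∈ r.1 ++ r.2, x < k := by
      intro r hr x hx
      rcases List.mem_append.1 hx with hx | hx
      · exact (h1 r hr).2.2.1 x hx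
      · exact (h1 r hr).2.2.2 x hx
    have hhigh : ∀ r ∈ RMs M code, ∀ x ∈ r.1 ++ r.2, k + 2 ≤ x := by
      intro r hr x hx
      rcases List.mem_append.1 hx with hx | hx
      · obtain ⟨s, rfl⟩ := (side_mem q0 hr true).2 x (by simpa [side] using hx)
        exact hk s
      · obtain ⟨s, rfl⟩ := (side_mem q0 hr false).2 x (by simpa [side] using hx)
        exact hk s
    have hne1 : ∀ r ∈ F1, r.1 ≠ [] := fun r hr => (h1 r hr).1
    have hbr1 : code .X ∈ D.brE.1 := by simp [D, dat, Data.brE]
    have hbr2 : k ∈ D.brE.2 := by simp [D, dat, Data.brE, kap]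
    have hX : k + 2 ≤ code .X := hk _
    have hmem : ∀ r, r ∈ F ↔ (r ∈ F1 ∨ r ∈ RMs M code ∨ r = D.brE) := by
      intro r
      have h0 : r ∈ {r | r ∈ F} ↔ r ∈ D.R := by rw [hF]
      exact h0
    intro r hr
    rcases (hmem r).1 hr with hr | hr | hr
    · refine ⟨(hP r hr).1, fun h => ?_⟩
      obtain ⟨x, hx⟩ := List.exists_mem_of_ne_nil _ (hne1 r hr)
      have hx1 := hlow r hr x (List.mem_append_left _ hx)
      rcases (hmem _).1 h with h | h | h
      · exact (hP r hr).2 h
      · have := hhigh _ h x (List.mem_append_right _ hx)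
        omega
      · have h2 : code .X ∈ r.2 := by
          have := congrArg Prod.fst h
          simp only at this
          rw [this]
          exact hbr1
        have := hlow r hr _ (List.mem_append_right _ h2)
        omega
    · refine ⟨?_, fun h => ?_⟩
      · intro h
        exact rms_ne hc hr hr h.symm
      · rcases (hmem _).1 h with h | h | h
        · obtain ⟨x, hx⟩ := List.exists_mem_of_ne_nil _ (hne1 _ h)
          have h3 := hlow _ h x (List.mem_append_left _ hx)
          have := hhigh r hr x (List.mem_append_right _ hx)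
          omega
        · exact rms_ne hc hr h rfl
        · have h2 : k ∈ r.1 := by
            have := congrArg Prod.snd h
            simp only at this
            rw [this]
            exact hbr2
          have := hhigh r hr _ (List.mem_append_left _ h2)
          omega
    · subst hr
      refine ⟨fun h => ?_, fun h => ?_⟩
      · rw [← h] at hbr2
        have : k ∈ ([code .X, code .pct] : List ℕ) := by simpa [D, dat, Data.brE] using hbr2
        simp only [List.mem_cons, List.not_mem_nil, or_false] at this
        have h5 := hk .X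
        have h6 := hk .pct
        rcases this with h' | h' <;> omega
      · rcases (hmem _).1 h with h | h | h
        · have := hlow _ h k (List.mem_append_left _ hbr2)
          omega
        · have := hhigh _ h k (List.mem_append_left _ hbr2)
          omega
        · have h2 := congrArg Prod.fst h
          simp only at h2
          rw [h2] at hbr2
          have : k ∈ ([code .X, code .pct] : List ℕ) := by simpa [D, dat, Data.brE] using hbr2
          simp only [List.mem_cons, List.not_mem_nil, or_false] at this
          have h5 := hk .X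
          have h6 := hk .pct
          rcases this with h' | h' <;> omega
  · intro n
    refine ⟨by simp [W, cfg], ?_⟩
    intro x hx
    obtain ⟨s, -, rfl⟩ := List.mem_map.1 hx
    exact hK s
  · intro n
    rw [hF]
    refine ⟨fun h => ?_, fun h => ?_⟩
    · exact halt_iso q0 hc k _ w1 h1' hw1 hk ((hu n).2 h)
    · exact no_halt q0 hc k _ w1 h1' hw1 hk (fun h' => h ((hu n).1 h'))

end Pool.Agent.H476R3.DiagMach.RD59
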