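import Mathlib
import Pool.Agent.Y59.RD.Fin2
import Pool.Agent.Y59.RK.Main

set_option autoImplicit false

/-! Several machines, and diagonalisation. -/

namespace Pool.Agent.Y59.RK

open Pool.Agent.H476R3.Diag Pool.Agent.Y59.RD
open Pool.Agent.H476R3.DiagMach.RD59 (Rev mainP)

/-- A finite presentation over `{0, ..., k-1}` and a base word. -/
abbrev Inp : Type := ℕ × List (List ℕ × List ℕ) × List ℕ

/-- well formed -/
def WF (I : Inp) : Prop :=
  (RelOK I.1 I.2.1 ∧ Rev I.2.1) ∧ I.2.2 ≠ [] ∧ ∀ x ∈ I.2.2, x < I.1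

/-- the diagram group -/
abbrev DG (I : Inp) : Type := DiagramGroup {r | r ∈ I.2.1} I.2.2

/-- the union of two presentations with disjoint alphabets -/
def uni (K : ℕ) (F1 F2 : List (List ℕ × List ℕ)) : List (List ℕ × List ℕ) :=
  F1 ++ F2.map (rr (fun n => n + K))

theorem uni_ok {K1 K2 : ℕ} {F1 F2 : List (List ℕ × List ℕ)} (h1 : RelOK K1 F1)
    (h2 : RelOK K2 F2) : RelOK (K1 + K2) (uni K1 F1 F2) := by
  intro r hr
  rcases List.mem_append.1 hr with hr | hr
  · obtain ⟨c1, c2, c3, c4⟩ := h1 r hr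
    exact ⟨c1, c2, fun x hx => lt_of_lt_of_le (c3 x hx) (Nat.le_add_right _ _),
      fun x hx => lt_of_lt_of_le (c4 x hx) (Nat.le_add_right _ _)⟩
  · obtain ⟨s, hs, rfl⟩ := List.mem_map.1 hr
    obtain ⟨c1, c2, c3, c4⟩ := h2 s hs
    refine ⟨by simpa [rr] using c1, by simpa [rr] using c2, ?_, ?_⟩
    · intro x hx
      obtain ⟨m, hm, rfl⟩ := List.mem_map.1 hx
      have := c3 m hm
      omega
    · intro x hx
      obtain ⟨m, hm, rfl⟩ := List.mem_map.1 hx
      have := c4 m hm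
      omega

theorem uni_rev {K1 K2 : ℕ} {F1 F2 : List (List ℕ × List ℕ)} (h1 : RelOK K1 F1)
    (h2 : RelOK K2 F2) (r1 : Rev F1) (r2 : Rev F2) : Rev (uni K1 F1 F2) := by
  have hinj : Function.Injective (fun n : ℕ => n + K1) := fun a b h => by
    simpa using h
  have hlow : ∀ r ∈ F1, ∀ r' ∈ F2.map (rr (fun n => n + K1)), r.1 ≠ r'.2 ∧ r.2 ≠ r'.1 := by
    intro r hr r' hr'
    obtain ⟨s, hs, rfl⟩ := List.mem_map.1 hr'
    obtain ⟨c1, c2, c3, c4⟩ := h1 r hr
    refine ⟨fun h => ?_, fun h => ?_⟩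
    · obtain ⟨x, hx⟩ := List.exists_mem_of_ne_nil _ c1
      have h5 := c3 x hx
      rw [h] at hx
      obtain ⟨m, -, rfl⟩ := List.mem_map.1 hx
      omega
    · obtain ⟨x, hx⟩ := List.exists_mem_of_ne_nil _ c2
      have h5 := c4 x hx
      rw [h] at hx
      obtain ⟨m, -, rfl⟩ := List.mem_map.1 hx
      omega
  intro r hr
  rcases List.mem_append.1 hr with hr | hr
  · refine ⟨(r1 r hr).1, fun h => ?_⟩
    rcases List.mem_append.1 h with h | h
    · exact (r1 r hr).2 h
    · exact (hlow r hr _ h).2 rfl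
  · have hr0 := hr
    obtain ⟨s, hs, rfl⟩ := List.mem_map.1 hr
    refine ⟨fun h => (r2 s hs).1 (hinj.list_map h), fun h => ?_⟩
    rcases List.mem_append.1 h with h | h
    · exact (hlow _ h _ hr0).1 rfl
    · obtain ⟨t, ht, hte⟩ := List.mem_map.1 h
      have e1 : t.1 = s.2 := hinj.list_map (congrArg Prod.fst hte)
      have e2 : t.2 = s.1 := hinj.list_map (congrArg Prod.snd hte)
      have e3 : t = (s.2, s.1) := Prod.ext e1 e2
      exact (r2 s hs).2 (e3 ▸ ht)

theorem uni_iso {K1 K2 : ℕ} {F1 F2 : List (List ℕ × List ℕ)} (h1 : RelOK K1 F1)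
    (h2 : RelOK K2 F2) {x y : List ℕ} (hx : ∀ n ∈ x, n < K1) :
    Nonempty (DiagramGroup {r | r ∈ uni K1 F1 F2} (x ++ y.map (fun n => n + K1)) ≃*
      DiagramGroup {r | r ∈ F1} x × DiagramGroup {r | r ∈ F2} y) := by
  let f : ℕ → ℕ := fun n => n + K1
  let g : ℕ → ℕ := fun n => n - K1
  have hgf : ∀ n, g (f n) = n := fun n => Nat.add_sub_cancel n K1
  have hF : {r | r ∈ uni K1 F1 F2} = RU {r | r ∈ F1} (rr f '' {r | r ∈ F2}) := by
    ext r
    simp only [uni, Set.mem_ofPred_eq, List.mem_append, List.mem_map, Set.mem_image]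
    rfl
  have hA : Over (pA K1) {r | r ∈ F1} := by
    intro r hr d
    obtain ⟨c1, c2, c3, c4⟩ := h1 r hr
    cases d with
    | true => exact ⟨by simpa [side] using c1, by simpa [side, pA] using c3⟩
    | false => exact ⟨by simpa [side] using c2, by simpa [side, pA] using c4⟩
  have hB : Over (pB K1) (rr f '' {r | r ∈ F2}) := by
    rintro _ ⟨r, hr, rfl⟩ d
    obtain ⟨c1, c2, c3, c4⟩ := h2 r hr
    rw [side_rr]
    refine ⟨?_, ?_⟩
    · cases d with
      | true => simpa [side] using c1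
      | false => simpa [side] using c2
    · intro n hn
      obtain ⟨m, -, rfl⟩ := List.mem_map.1 hn
      simp [pB, f]
  rw [hF]
  obtain ⟨e1⟩ := prod_iso hA hB (x := x) (y := y.map f) hx (by
    intro m hm
    obtain ⟨m', -, rfl⟩ := List.mem_map.1 hm
    simp [f])
  obtain ⟨e2⟩ := rl_iso (R := {r | r ∈ F2}) hgf y
  exact ⟨e1.trans (MulEquiv.prodCongr (MulEquiv.refl _) e2.symm)⟩

/-- Direct products of diagram groups of finite presentations. -/
theorem prod_inp (I J : Inp) (hI : WF I) (hJ : WF J) :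
    ∃ L : Inp, WF L ∧ Nonempty (DG L ≃* DG I × DG J) := by
  refine ⟨(I.1 + J.1, uni I.1 I.2.1 J.2.1, I.2.2 ++ J.2.2.map (fun n => n + I.1)),
    ⟨⟨uni_ok hI.1.1 hJ.1.1, uni_rev hI.1.1 hJ.1.1 hI.1.2 hJ.1.2⟩, ?_, ?_⟩,
    uni_iso hI.1.1 hJ.1.1 hI.2.2⟩
  · intro h
    exact hI.2.1 (List.append_eq_nil_iff.1 h).1
  · intro x hx
    rcases List.mem_append.1 hx with hx | hx
    · exact lt_of_lt_of_le (hI.2.2 x hx) (Nat.le_add_right _ _)
    · obtain ⟨m, hm, rfl⟩ := List.mem_map.1 hx
      have := hJ.2.2 m hm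
      change m + I.1 < I.1 + J.1
      omega

/-- The group `G` is the product of the diagram groups with the numbers `i` such that `p i`. -/
def IsProd : List Inp → (ℕ → Prop) → (G : Type) → [Group G] → Prop
  | [], _, G, _ => Subsingleton G
  | I :: Gs, p, G, _ => ∃ (A B : Type) (_ : Group A) (_ : Group B), Nonempty (G ≃* A × B) ∧
      (p 0 → Nonempty (A ≃* DG I)) ∧ (¬ p 0 → Subsingleton A) ∧
      IsProd Gs (fun i => p (i + 1)) B

theorem isProd_congr : ∀ (Gs : List Inp) (p : ℕ → Prop) {G H : Type} [Group G] [Group H],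
    Nonempty (G ≃* H) → IsProd Gs p H → IsProd Gs p G
  | [], _, _, _, _, _, ⟨e⟩, h => by
    have h' : Subsingleton _ := h
    exact e.toEquiv.subsingleton
  | _ :: _, _, _, _, _, _, ⟨e⟩, h => by
    obtain ⟨A, B, iA, iB, ⟨e'⟩, h1, h2, h3⟩ := h
    exact ⟨A, B, iA, iB, ⟨e.trans e'⟩, h1, h2, h3⟩

theorem isProd_none : ∀ (Gs : List Inp) (p : ℕ → Prop) {G : Type} [Group G], IsProd Gs p G →
    (∀ i < Gs.length, ¬ p i) → Subsingleton G
  | [], _, _, _, h, _ => h
  | I :: Gs, p, G, _, h, hp => by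
    obtain ⟨A, B, iA, iB, ⟨e⟩, h1, h2, h3⟩ := h
    have := h2 (hp 0 (by simp))
    have := isProd_none Gs _ h3 (fun i hi => hp (i + 1) (by simpa using hi))
    exact e.toEquiv.subsingleton

theorem isProd_one : ∀ (Gs : List Inp) (p : ℕ → Prop) {G : Type} [Group G], IsProd Gs p G →
    ∀ (i : ℕ) (I : Inp), Gs[i]? = some I → p i → (∀ j, p j → j = i) → Nonempty (G ≃* DG I)
  | [], _, _, _, _, i, I, hI, _, _ => by simp at hI
  | J :: Gs, p, G, _, h, i, I, hI, hi, hu => by
    obtain ⟨A, B, iA, iB, ⟨e⟩, h1, h2, h3⟩ := h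
    cases i with
    | zero =>
      have hJ : J = I := by simpa using hI
      subst hJ
      obtain ⟨e1⟩ := h1 hi
      have := isProd_none Gs _ h3 (fun j _ hj => by
        have := hu _ hj
        omega)
      let _ : Unique B := uniqueOfSubsingleton 1
      exact ⟨(e.trans MulEquiv.prodUnique).trans e1⟩
    | succ i =>
      have h0 : Subsingleton A := h2 (fun h0 => by
        have := hu _ h0
        omega)
      obtain ⟨e1⟩ := isProd_one Gs _ h3 i I (by simpa using hI) hi (fun j hj => by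
        have := hu _ hj
        omega)
      let _ : Unique A := uniqueOfSubsingleton 1
      exact ⟨(e.trans MulEquiv.uniqueProd).trans e1⟩

/-- The trivial group is a diagram group. -/
theorem triv_inp : Subsingleton (DiagramGroup {r : List ℕ × List ℕ | r ∈
    ([] : List (List ℕ × List ℕ))} [0]) := by
  refine ⟨fun x y => ?_⟩
  obtain ⟨⟨L, hL⟩, rfl⟩ := DiagramGroup.exists_rep x
  obtain ⟨⟨L', hL'⟩, rfl⟩ := DiagramGroup.exists_rep y
  have key : ∀ L : List (Edge ℕ), IsPath {r | r ∈ ([] : List (List ℕ × List ℕ))} [0] L [0] →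
      L = [] := by
    intro L hL
    cases L with
    | nil => rfl
    | cons e L => exact absurd hL.1 (by simp)
  have e1 := key L hL
  have e2 := key L' hL'
  subst e1
  subst e2
  rfl

/-- **Several machines.** -/
theorem multi : ∀ Gs : List Inp, (∀ I ∈ Gs, WF I) →
    ∃ (K : ℕ) (F : List (List ℕ × List ℕ)), (RelOK K F ∧ Rev F) ∧
      ∀ p : ℕ → ℕ → Prop, (∀ i, REPred (p i)) →
        ∃ W : ℕ → List ℕ, Computable W ∧ (∀ n, W n ≠ [] ∧ ∀ x ∈ W n, x < K) ∧
          ∀ n, IsProd Gs (fun i => p i n) (DiagramGroup {r | r ∈ F} (W n))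
  | [], _ => by
    refine ⟨1, [], ⟨by intro r hr; simp at hr, by intro r hr; simp at hr⟩, fun p hp => ⟨fun _ => [0], Computable.const _,
      fun n => ⟨by simp, by simp⟩, fun n => ?_⟩⟩
    exact triv_inp
  | I :: Gs, h => by
    obtain ⟨K1, G1, W1, a1, a2, aP, a3, a4⟩ := mainP I.1 I.2.1 I.2.2
      (h I (by simp)).1.1 (h I (by simp)).2.2 (h I (by simp)).1.2
    obtain ⟨K2, G2, ⟨b1, bP⟩, b2⟩ := multi Gs (fun J hJ => h J (by simp [hJ]))
    refine ⟨K1 + K2, uni K1 G1 G2, ⟨uni_ok a2 b1, uni_rev a2 b1 aP bP⟩, fun p hp => ?_⟩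
    obtain ⟨u, hu, hpu⟩ := Pool.Agent.Helper599.Source.re_reduce (p 0) (hp 0)
    obtain ⟨W2, c1, c2, c3⟩ := b2 (fun i => p (i + 1)) (fun i => hp (i + 1))
    refine ⟨fun n => W1 (u n) ++ (W2 n).map (fun n => n + K1), ?_, ?_, ?_⟩
    · have h1 : Computable (fun n => W1 (u n)) := a1.comp hu
      have h3 : Primrec (fun l : List ℕ => l.map (fun n => n + K1)) :=
        Primrec.list_map Primrec.id
          (Primrec.nat_add.comp Primrec.snd (Primrec.const K1)).to₂
      have h4 : Primrec₂ (fun l l' : List ℕ => l ++ l') := Primrec.list_append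
      exact h4.to_comp.comp h1 (h3.to_comp.comp c1)
    · intro n
      refine ⟨?_, ?_⟩
      · intro h0
        exact (a3 (u n)).1 (List.append_eq_nil_iff.1 h0).1
      · intro x hx
        rcases List.mem_append.1 hx with hx | hx
        · exact lt_of_lt_of_le ((a3 (u n)).2 x hx) (Nat.le_add_right _ _)
        · obtain ⟨m, hm, rfl⟩ := List.mem_map.1 hx
          have := (c2 n).2 m hm
          omega
    · intro n
      refine ⟨DiagramGroup {r | r ∈ G1} (W1 (u n)), DiagramGroup {r | r ∈ G2} (W2 n),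
        inferInstance, inferInstance, uni_iso a2 b1 (a3 _).2, ?_, ?_, c3 n⟩
      · intro h
        exact (a4 (u n)).1 ((hpu n).1 h)
      · intro h
        exact (a4 (u n)).2 (fun h' => h ((hpu n).2 h'))

/-- **Diagonalisation.** Over one presentation every partial computable function is right for some
base word. -/
theorem diagonal (Gs : List Inp) (hGs : ∀ I ∈ Gs, WF I) :
    ∃ (K : ℕ) (F : List (List ℕ × List ℕ)), (RelOK K F ∧ Rev F) ∧
      ∀ g : List ℕ →. ℕ, Partrec g → ∃ w : List ℕ, (w ≠ [] ∧ ∀ x ∈ w, x < K) ∧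
        (∀ (i : ℕ) (I : Inp), Gs[i]? = some I → i ∈ g w →
          Nonempty (DiagramGroup {r | r ∈ F} w ≃* DG I)) ∧
        ((∀ i < Gs.length, i ∉ g w) → Subsingleton (DiagramGroup {r | r ∈ F} w)) := by
  classical
  obtain ⟨K, F, h1, h2⟩ := multi Gs hGs
  let φ : ℕ →. ℕ := fun n => (Denumerable.ofNat Nat.Partrec.Code n).eval n
  have hφ : Partrec φ := by
    have h := Nat.Partrec.Code.eval_part.comp
      (Computable.ofNat Nat.Partrec.Code) (Computable.id (α := ℕ))
    exact h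
  have hre : ∀ v : ℕ, REPred (fun n => v ∈ φ n) := by
    intro v
    have h2 : Partrec (fun z : ℕ × ℕ =>
        (cond (decide (z.2 = v)) (Part.some ()) Part.none : Part Unit)) := by
      refine Partrec.cond ?_ (Computable.const ()) Partrec.none
      exact (Primrec.eq.decide.comp Primrec.snd (Primrec.const v)).to_comp
    have h1 : Partrec (fun n => (φ n).bind (fun m =>
        (cond (decide (m = v)) (Part.some ()) Part.none : Part Unit))) :=
      Partrec.bind hφ h2.to₂
    refine (Partrec.dom_re h1).of_eq ?_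
    intro n
    constructor
    · intro h
      obtain ⟨m, hm⟩ := h
      by_cases hv : (φ n).get m = v
      · exact ⟨m, hv⟩
      · simp [hv] at hm
    · rintro ⟨m, hm⟩
      refine ⟨m, ?_⟩
      simp [hm]
  obtain ⟨W, w1, w2, w3⟩ := h2 (fun i n => i ∈ φ n) hre
  refine ⟨K, F, h1, fun g hg => ?_⟩
  have hgW : Partrec (fun n => g (W n)) := hg.comp w1
  obtain ⟨c, hc⟩ := Nat.Partrec.Code.exists_code.1 (Partrec.nat_iff.1 hgW)
  have hn : φ (Encodable.encode c) = g (W (Encodable.encode c)) := by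
    simp only [φ, Denumerable.ofNat_encode, hc]
  refine ⟨W (Encodable.encode c), w2 _, fun i I hI hi => ?_, fun hi => ?_⟩
  · refine isProd_one Gs _ (w3 (Encodable.encode c)) i I hI (by rw [hn]; exact hi) ?_
    intro j hj
    rw [hn] at hj
    exact Part.mem_unique hj hi
  · refine isProd_none Gs _ (w3 (Encodable.encode c)) ?_
    intro i hi' h
    rw [hn] at h
    exact hi i hi' h

end Pool.Agent.Y59.RK
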