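import Mathlib
import Pool.Agent.Y59.RK.Multi

set_option autoImplicit false

/-! Words with an inert letter: the diagram group is the product. -/

namespace Pool.Agent.Y59.RK

open Pool.Agent.H476R3.Diag Pool.Agent.Y59.RD
open Pool.Agent.H476R3.DiagMach.RD59 (Rev mainP)

section

variable (K : ℕ)

/-- the shift -/
abbrev sh (n : ℕ) : ℕ := n + (K + 1)

/-- folding -/
def fo (n : ℕ) : ℕ := if n ≤ K then n else n - (K + 1)

theorem fo_sh (n : ℕ) : fo K (sh K n) = n := by
  unfold fo sh
  rw [if_neg (by omega)]
  omega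

theorem sh_inj : Function.Injective (sh K) := fun a b h => by
  simpa [sh] using h

/-- shift the part behind the first `K` -/
def lw : List ℕ → List ℕ
  | [] => []
  | n :: w => if n = K then K :: w.map (sh K) else n :: lw w

theorem lw_mem {a : List ℕ} (h : K ∈ a) (b : List ℕ) : lw K (a ++ b) = lw K a ++ b.map (sh K) := by
  induction a with
  | nil => simp at h
  | cons n a ih =>
    simp only [List.cons_append, lw]
    by_cases hn : n = K
    · simp [hn]
    · rw [if_neg hn, if_neg hn, ih (by
        rcases List.mem_cons.1 h with h | h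
        · exact absurd h.symm hn
        · exact h)]
      rfl

theorem lw_not {a : List ℕ} (h : K ∉ a) (b : List ℕ) : lw K (a ++ b) = a ++ lw K b := by
  induction a with
  | nil => rfl
  | cons n a ih =>
    simp only [List.cons_append, lw]
    rw [if_neg (fun hn => h (by simp [hn])), ih (fun h' => h (by simp [h']))]

theorem lw_fo {a : List ℕ} (h : ∀ n ∈ a, n ≤ K) : (lw K a).map (fo K) = a := by
  have hs : ∀ b : List ℕ, (b.map (sh K)).map (fo K) = b := by
    intro b
    rw [List.map_map]
    have : fo K ∘ sh K = id := funext (fo_sh K)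
    rw [this, List.map_id]
  induction a with
  | nil => rfl
  | cons n a ih =>
    simp only [lw]
    by_cases hn : n = K
    · rw [if_pos hn, List.map_cons, hs, hn]
      congr 1
      simp [fo]
    · rw [if_neg hn, List.map_cons, ih (fun m hm => h m (by simp [hm]))]
      congr 1
      simp [fo, h n (by simp)]

/-- lift of an edge -/
def le (e : Edge ℕ) : Edge ℕ :=
  if K ∈ e.a then ⟨lw K e.a, rr (sh K) e.r, e.b.map (sh K), e.fwd⟩
  else ⟨e.a, e.r, lw K e.b, e.fwd⟩

variable {K} {F : List (List ℕ × List ℕ)}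

theorem side_lt (hF : RelOK K F) {r : List ℕ × List ℕ} (hr : r ∈ F) (f : Bool) :
    side r f ≠ [] ∧ ∀ n ∈ side r f, n < K := by
  obtain ⟨h1, h2, h3, h4⟩ := hF r hr
  cases f with
  | true => exact ⟨by simpa [side] using h1, by simpa [side] using h3⟩
  | false => exact ⟨by simpa [side] using h2, by simpa [side] using h4⟩

theorem side_not (hF : RelOK K F) {r : List ℕ × List ℕ} (hr : r ∈ F) (f : Bool) :
    K ∉ side r f := fun h => lt_irrefl _ ((side_lt hF hr f).2 K h)

theorem le_src (hF : RelOK K F) {e : Edge ℕ} (hr : e.r ∈ F) : (le K e).src = lw K e.src := by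
  obtain ⟨a, r, b, f⟩ := e
  by_cases h : K ∈ a
  · simp only [le, h, if_true, Edge.src, side_rr]
    rw [List.append_assoc a, lw_mem K h]
    simp
  · simp only [le, h, if_false, Edge.src]
    rw [List.append_assoc a, List.append_assoc a, lw_not K h, lw_not K (side_not hF hr f)]

theorem le_tgt (hF : RelOK K F) {e : Edge ℕ} (hr : e.r ∈ F) : (le K e).tgt = lw K e.tgt := by
  obtain ⟨a, r, b, f⟩ := e
  by_cases h : K ∈ a
  · simp only [le, h, if_true, Edge.tgt, side_rr]
    rw [List.append_assoc a, lw_mem K h]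
    simp
  · simp only [le, h, if_false, Edge.tgt]
    rw [List.append_assoc a, List.append_assoc a, lw_not K h, lw_not K (side_not hF hr (!f))]

theorem le_rel {e : Edge ℕ} (hr : e.r ∈ F) : (le K e).r ∈ uni (K + 1) F F := by
  unfold le uni
  split_ifs with h
  · exact List.mem_append_right _ (List.mem_map.2 ⟨e.r, hr, rfl⟩)
  · exact List.mem_append_left _ hr

theorem le_path (hF : RelOK K F) {L : List (Edge ℕ)} : ∀ {u v : List ℕ},
    IsPath {r | r ∈ F} u L v → IsPath {r | r ∈ uni (K + 1) F F} (lw K u) (L.map (le K)) (lw K v) := by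
  induction L with
  | nil => intro u v h; have : u = v := h; exact this ▸ rfl
  | cons e L ih =>
    intro u v h
    obtain ⟨h1, rfl, h3⟩ := h
    exact ⟨le_rel h1, le_src hF h1, by rw [le_tgt hF h1]; exact ih h3⟩

theorem le_inv (e : Edge ℕ) : le K e.inv = (le K e).inv := by
  obtain ⟨a, r, b, f⟩ := e
  by_cases h : K ∈ a <;> simp [le, h, Edge.inv]

theorem le_elem (hF : RelOK K F) {u v : List ℕ} {L L' : List (Edge ℕ)}
    (hp : IsPath {r | r ∈ F} u L v) (h : Elem L L') : Elem (L.map (le K)) (L'.map (le K)) := by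
  cases h with
  | cancel L₁ e L₂ =>
    simp only [List.map_append, List.map_cons, le_inv]
    exact Elem.cancel _ _ _
  | square L₁ a r b s c p q L₂ =>
    obtain ⟨w, q1, q2⟩ := isPath_append.1 hp
    obtain ⟨q3, q4, q5, q6, q7⟩ := q2
    have hr : r ∈ F := q3
    have hs : s ∈ F := q5
    simp only [List.map_append, List.map_cons]
    by_cases ha : K ∈ a
    · have := Elem.square (L₁.map (le K)) (lw K a) (rr (sh K) r) (b.map (sh K)) (rr (sh K) s)
        (c.map (sh K)) p q (L₂.map (le K))
      simp only [side_rr] at this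
      have e1 : ∀ x y, le K ⟨a, r, x, y⟩ = ⟨lw K a, rr (sh K) r, x.map (sh K), y⟩ := by
        intro x y
        simp [le, ha]
      have e2 : ∀ x y, le K ⟨a ++ x ++ b, s, c, y⟩ =
          ⟨lw K a ++ x.map (sh K) ++ b.map (sh K), rr (sh K) s, c.map (sh K), y⟩ := by
        intro x y
        have h1 : K ∈ a ++ x ++ b := by simp [ha]
        have h2 : lw K (a ++ x ++ b) = lw K a ++ x.map (sh K) ++ b.map (sh K) := by
          rw [List.append_assoc, lw_mem K ha]
          simp
        simp only [le, h1, if_true, h2]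
      rw [e1, e1, e2, e2]
      simpa only [List.map_append] using this
    · by_cases hb : K ∈ b
      · have := Elem.square (L₁.map (le K)) a r (lw K b) (rr (sh K) s)
          (c.map (sh K)) p q (L₂.map (le K))
        simp only [side_rr] at this
        have e1 : ∀ x y, le K ⟨a, r, b ++ x ++ c, y⟩ =
            ⟨a, r, lw K b ++ x.map (sh K) ++ c.map (sh K), y⟩ := by
          intro x y
          have h2 : lw K (b ++ x ++ c) = lw K b ++ x.map (sh K) ++ c.map (sh K) := by
            rw [List.append_assoc, lw_mem K hb]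
            simp
          simp only [le, ha, if_false, h2]
        have e2 : ∀ f y, le K ⟨a ++ side r f ++ b, s, c, y⟩ =
            ⟨a ++ side r f ++ lw K b, rr (sh K) s, c.map (sh K), y⟩ := by
          intro f y
          have h1 : K ∈ a ++ side r f ++ b := by simp [hb]
          have h2 : lw K (a ++ side r f ++ b) = a ++ side r f ++ lw K b := by
            rw [List.append_assoc, lw_not K ha, lw_not K (side_not hF hr f), List.append_assoc]
          simp only [le, h1, if_true, h2]
        rw [e1, e1, e2, e2]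
        exact this
      · have := Elem.square (L₁.map (le K)) a r b s (lw K c) p q (L₂.map (le K))
        have e1 : ∀ f y, le K ⟨a, r, b ++ side s f ++ c, y⟩ =
            ⟨a, r, b ++ side s f ++ lw K c, y⟩ := by
          intro f y
          have h2 : lw K (b ++ side s f ++ c) = b ++ side s f ++ lw K c := by
            rw [List.append_assoc, lw_not K hb, lw_not K (side_not hF hs f), List.append_assoc]
          simp only [le, ha, if_false, h2]
        have e2 : ∀ f y, le K ⟨a ++ side r f ++ b, s, c, y⟩ =
            ⟨a ++ side r f ++ b, s, lw K c, y⟩ := by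
          intro f y
          have h1 : K ∉ a ++ side r f ++ b := by
            have := side_not hF hr f
            simp [ha, hb, this]
          simp only [le, h1, if_false]
        rw [e1, e1, e2, e2]
        exact this

theorem le_htpy (hF : RelOK K F) {u v : List ℕ} {L L' : List (Edge ℕ)}
    (h : Htpy {r | r ∈ F} u v L L') :
    Htpy {r | r ∈ uni (K + 1) F F} (lw K u) (lw K v) (L.map (le K)) (L'.map (le K)) := by
  induction h with
  | refl L h => exact Htpy.refl _ (le_path hF h)
  | elem L L' h h' e => exact Htpy.elem _ _ (le_path hF h) (le_path hF h') (le_elem hF h e)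
  | symm L L' _ ih => exact Htpy.symm _ _ ih
  | trans L L' L'' _ _ ih ih' => exact Htpy.trans _ _ _ ih ih'

/-- the lifting homomorphism -/
def leHom (hF : RelOK K F) (w : List ℕ) :
    DiagramGroup {r | r ∈ F} w →* DiagramGroup {r | r ∈ uni (K + 1) F F} (lw K w) where
  toFun := Quotient.map (fun L : Loop {r | r ∈ F} w => ⟨L.1.map (le K), le_path hF L.2⟩)
    (fun _ _ h => le_htpy hF h)
  map_one' := rfl
  map_mul' := by
    intro a b
    obtain ⟨L, rfl⟩ := DiagramGroup.exists_rep a
    obtain ⟨L', rfl⟩ := DiagramGroup.exists_rep b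
    change DiagramGroup.mk ⟨(L.1 ++ L'.1).map (le K), _⟩ =
      DiagramGroup.mk ⟨L.1.map (le K) ++ L'.1.map (le K), _⟩
    congr 2
    exact List.map_append

theorem rr_fo (hF : RelOK K F) {r : List ℕ × List ℕ} (hr : r ∈ F) : rr (fo K) r = r := by
  obtain ⟨-, -, h3, h4⟩ := hF r hr
  have key : ∀ l : List ℕ, (∀ x ∈ l, x < K) → l.map (fo K) = l := by
    intro l hl
    conv_rhs => rw [← List.map_id l]
    refine List.map_congr_left fun x hx => ?_
    simp [fo, (hl x hx).le]
  exact Prod.ext (key _ h3) (key _ h4)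

theorem rr_fo_sh (r : List ℕ × List ℕ) : rr (fo K) (rr (sh K) r) = r :=
  rr_inv (fo_sh K) r

theorem uni_fo (hF : RelOK K F) : rr (fo K) '' {r | r ∈ uni (K + 1) F F} = {r | r ∈ F} := by
  ext r
  constructor
  · rintro ⟨s, hs, rfl⟩
    rcases List.mem_append.1 hs with hs | hs
    · rw [rr_fo hF hs]
      exact hs
    · obtain ⟨t, ht, rfl⟩ := List.mem_map.1 hs
      change rr (fo K) (rr (sh K) t) ∈ F
      rw [rr_fo_sh]
      exact ht
  · intro hr
    exact ⟨r, List.mem_append_left _ hr, rr_fo hF hr⟩

/-- folding after lifting -/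
theorem fold_le (hF : RelOK K F) {L : List (Edge ℕ)} : ∀ {u v : List ℕ}, (∀ n ∈ u, n ≤ K) →
    IsPath {r | r ∈ F} u L v → (L.map (le K)).map (rl (fo K)) = L := by
  induction L with
  | nil => intro u v _ _; rfl
  | cons e L ih =>
    intro u v hu h
    obtain ⟨h1, rfl, h3⟩ := h
    have h1' : e.r ∈ F := h1
    have ht : ∀ n ∈ e.tgt, n ≤ K := by
      intro n hn
      rw [Edge.tgt, List.mem_append, List.mem_append] at hn
      rcases hn with (hn | hn) | hn
      · exact hu n (by simp [Edge.src, hn])
      · exact ((side_lt hF h1' _).2 n hn).le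
      · exact hu n (by simp [Edge.src, hn])
    rw [List.map_cons, List.map_cons, ih ht h3]
    congr 1
    have ha : ∀ n ∈ e.a, n ≤ K := fun n hn => hu n (by simp [Edge.src, hn])
    have hb : ∀ n ∈ e.b, n ≤ K := fun n hn => hu n (by simp [Edge.src, hn])
    obtain ⟨a, r, b, f⟩ := e
    have hs : ∀ b : List ℕ, (b.map (sh K)).map (fo K) = b := by
      intro b
      rw [List.map_map]
      have : fo K ∘ sh K = id := funext (fo_sh K)
      rw [this, List.map_id]
    unfold le
    split_ifs with hK
    · simp only [rl]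
      rw [lw_fo K ha, rr_fo_sh, hs]
    · simp only [rl]
      rw [lw_fo K hb, rr_fo hF h1']
      have : a.map (fo K) = a := by
        conv_rhs => rw [← List.map_id a]
        refine List.map_congr_left fun x hx => ?_
        simp [fo, ha x hx]
      rw [this]

/-- paths in the doubled presentation are lifts -/
theorem lift_path (hF : RelOK K F) {Z : List (Edge ℕ)} : ∀ {u1 u2 z : List ℕ},
    (∀ n ∈ u1, n < K) → IsPath {r | r ∈ uni (K + 1) F F} (u1 ++ K :: u2.map (sh K)) Z z →
      ∃ v1 v2 L, (∀ n ∈ v1, n < K) ∧ z = v1 ++ K :: v2.map (sh K) ∧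
        IsPath {r | r ∈ F} (u1 ++ K :: u2) L (v1 ++ K :: v2) ∧ Z = L.map (le K) := by
  induction Z with
  | nil =>
    intro u1 u2 z h1 h
    have : u1 ++ K :: u2.map (sh K) = z := h
    exact ⟨u1, u2, [], h1, this.symm, rfl, rfl⟩
  | cons e Z ih =>
    intro u1 u2 z hu h
    obtain ⟨h1, h2, h3⟩ := h
    obtain ⟨a, ρ, b, f⟩ := e
    rcases List.mem_append.1 h1 with h1 | h1
    · have h1' : ρ ∈ F := h1
      obtain ⟨q1, q2⟩ := side_lt hF h1' f
      obtain ⟨b1, hb, hx⟩ := split_left (K := K) (x := u1) (y := K :: u2.map (sh K)) q1 q2 (by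
        intro n hn
        rcases List.mem_cons.1 hn with rfl | hn
        · exact le_refl _
        · obtain ⟨m, -, rfl⟩ := List.mem_map.1 hn
          simp only [sh]
          omega) h2
      subst hb
      have hKa : K ∉ a := fun hK => lt_irrefl _ (hu K (by rw [hx]; simp [hK]))
      have hKb : K ∉ b1 := fun hK => lt_irrefl _ (hu K (by rw [hx]; simp [hK]))
      have hlow : ∀ n ∈ a ++ side ρ (!f) ++ b1, n < K := by
        intro n hn
        rw [List.mem_append, List.mem_append] at hn
        rcases hn with (hn | hn) | hn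
        · exact hu n (by rw [hx]; simp [hn])
        · exact (side_lt hF h1' _).2 n hn
        · exact hu n (by rw [hx]; simp [hn])
      have ht : (Edge.tgt ⟨a, ρ, b1 ++ K :: u2.map (sh K), f⟩) =
          (a ++ side ρ (!f) ++ b1) ++ K :: u2.map (sh K) := by
        simp [Edge.tgt]
      rw [ht] at h3
      obtain ⟨v1, v2, L, k1, k2, k3, k4⟩ := ih hlow h3
      refine ⟨v1, v2, ⟨a, ρ, b1 ++ K :: u2, f⟩ :: L, k1, k2, ⟨h1', ?_, ?_⟩, ?_⟩
      · simp [Edge.src, hx]
      · have : (Edge.tgt ⟨a, ρ, b1 ++ K :: u2, f⟩) = (a ++ side ρ (!f) ++ b1) ++ K :: u2 := by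
          simp [Edge.tgt]
        rw [this]
        exact k3
      · rw [List.map_cons, ← k4]
        congr 1
        simp only [le, hKa, if_false]
        rw [lw_not K hKb]
        simp [lw]
    · obtain ⟨t, ht, rfl⟩ := List.mem_map.1 h1
      have q1 : side (rr (sh K) t) f ≠ [] := by
        rw [side_rr]
        simpa using (side_lt hF ht f).1
      have q2 : ∀ n ∈ side (rr (sh K) t) f, K + 1 ≤ n := by
        intro n hn
        rw [side_rr] at hn
        obtain ⟨m, -, rfl⟩ := List.mem_map.1 hn
        simp only [sh]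
        omega
      have h2' : a ++ side (rr (sh K) t) f ++ b = (u1 ++ [K]) ++ u2.map (sh K) := by
        have : a ++ side (rr (sh K) t) f ++ b = u1 ++ K :: u2.map (sh K) := h2
        rw [this]
        simp
      obtain ⟨a1, ha, hy⟩ := split_right (K := K + 1) q1 q2 (by
        intro n hn
        rcases List.mem_append.1 hn with hn | hn
        · exact lt_of_lt_of_le (hu n hn) (Nat.le_succ _)
        · rw [List.mem_singleton] at hn
          omega) h2'
      obtain ⟨c1, b0, g1, g2, g3⟩ := List.map_eq_append_iff.1 hy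
      obtain ⟨a0, s0, g4, g5, g6⟩ := List.map_eq_append_iff.1 g2
      rw [side_rr] at g6
      have g7 : s0 = side t f := (sh_inj K).list_map g6
      subst g7
      subst g3
      subst g5
      subst ha
      have htt : (Edge.tgt ⟨u1 ++ [K] ++ a0.map (sh K), rr (sh K) t, b0.map (sh K), f⟩) =
          u1 ++ K :: (a0 ++ side t (!f) ++ b0).map (sh K) := by
        simp [Edge.tgt, side_rr]
      rw [htt] at h3
      obtain ⟨v1, v2, L, k1, k2, k3, k4⟩ := ih hu h3
      refine ⟨v1, v2, ⟨u1 ++ K :: a0, t, b0, f⟩ :: L, k1, k2, ⟨ht, ?_, ?_⟩, ?_⟩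
      · simp [Edge.src, g1, g4]
      · have : (Edge.tgt ⟨u1 ++ K :: a0, t, b0, f⟩) = u1 ++ K :: (a0 ++ side t (!f) ++ b0) := by
          simp [Edge.tgt]
        rw [this]
        exact k3
      · rw [List.map_cons, ← k4]
        congr 1
        have hm : K ∈ u1 ++ K :: a0 := by simp
        have hn : K ∉ u1 := fun hK => lt_irrefl _ (hu K hK)
        simp only [le, hm, if_true]
        rw [lw_not K hn]
        simp [lw]

theorem le_iso (hF : RelOK K F) {x y : List ℕ} (hx : ∀ n ∈ x, n < K) (hy : ∀ n ∈ y, n ≤ K) :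
    Nonempty (DiagramGroup {r | r ∈ F} (x ++ K :: y) ≃*
      DiagramGroup {r | r ∈ uni (K + 1) F F} (x ++ K :: y.map (sh K))) := by
  have hn : K ∉ x := fun hK => lt_irrefl _ (hx K hK)
  have hw : lw K (x ++ K :: y) = x ++ K :: y.map (sh K) := by
    rw [lw_not K hn]
    simp [lw]
  have hle : ∀ n ∈ x ++ K :: y, n ≤ K := by
    intro n hn
    rcases List.mem_append.1 hn with hn | hn
    · exact (hx n hn).le
    · rcases List.mem_cons.1 hn with rfl | hn
      · exact le_refl _
      · exact hy n hn
  rw [← hw]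
  refine ⟨MulEquiv.ofBijective (leHom hF (x ++ K :: y)) ⟨?_, ?_⟩⟩
  · intro a b hab
    obtain ⟨L, rfl⟩ := DiagramGroup.exists_rep a
    obtain ⟨L', rfl⟩ := DiagramGroup.exists_rep b
    have h1 : Htpy {r | r ∈ uni (K + 1) F F} (lw K (x ++ K :: y)) (lw K (x ++ K :: y))
      (L.1.map (le K)) (L'.1.map (le K)) := DiagramGroup.mk_eq.1 hab
    have h2 := rl_htpy (fo K) h1
    rw [uni_fo hF, lw_fo K hle, fold_le hF hle L.2, fold_le hF hle L'.2] at h2
    exact DiagramGroup.mk_eq.2 h2
  · intro b
    obtain ⟨⟨Z, hZ⟩, rfl⟩ := DiagramGroup.exists_rep b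
    have hZ' := hZ
    rw [hw] at hZ'
    obtain ⟨v1, v2, L, k1, k2, k3, k4⟩ := lift_path hF hx hZ'
    have e1 : x = v1 ∧ y.map (sh K) = v2.map (sh K) := by
      have hv : K ∉ v1 := fun hK => lt_irrefl _ (k1 K hK)
      have h5 := List.append_eq_append_iff.1 k2
      rcases h5 with ⟨c, h6, h7⟩ | ⟨c, h6, h7⟩
      · cases c with
        | nil => exact ⟨by simpa using h6.symm, by simpa using h7⟩
        | cons m c =>
          exfalso
          simp only [List.cons_append, List.cons.injEq] at h7
          exact hv (by rw [h6, ← h7.1]; simp)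
      · cases c with
        | nil => exact ⟨by simpa using h6, by simpa using h7.symm⟩
        | cons m c =>
          exfalso
          simp only [List.cons_append, List.cons.injEq] at h7
          exact hn (by rw [h6, ← h7.1]; simp)
    obtain ⟨rfl, e2⟩ := e1
    have e3 : y = v2 := (sh_inj K).list_map e2
    subst e3
    subst k4
    exact ⟨DiagramGroup.mk ⟨L, k3⟩, rfl⟩

end

end Pool.Agent.Y59.RK
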