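import Mathlib
import Pool.Agent.Y59.RK.Sepa
import Pool.Agent.Y59.RK.Tri
import Pool.Agent.Y59.RK.Inf

set_option autoImplicit false

/-! One presentation for all bounds. -/

namespace Pool.Agent.Y59.RK

open Pool.Agent.H476R3.Diag Pool.Agent.Y59.RD
open Pool.Agent.H476R3.DiagMach.RD59 (Rev mainP)

theorem relOK_mono {K K' : ℕ} (h : K ≤ K') {F : List (List ℕ × List ℕ)} (hF : RelOK K F) :
    RelOK K' F := by
  intro r hr
  obtain ⟨c1, c2, c3, c4⟩ := hF r hr
  exact ⟨c1, c2, fun x hx => lt_of_lt_of_le (c3 x hx) h, fun x hx => lt_of_lt_of_le (c4 x hx) h⟩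

theorem nil_triv {K : ℕ} {F : List (List ℕ × List ℕ)} (hF : RelOK K F) :
    Subsingleton (DiagramGroup {r | r ∈ F} []) := by
  refine ⟨fun x y => ?_⟩
  obtain ⟨⟨L, hL⟩, rfl⟩ := DiagramGroup.exists_rep x
  obtain ⟨⟨L', hL'⟩, rfl⟩ := DiagramGroup.exists_rep y
  have key : ∀ L : List (Edge ℕ), IsPath {r | r ∈ F} [] L [] → L = [] := by
    intro L hL
    cases L with
    | nil => rfl
    | cons e L =>
      exfalso
      obtain ⟨h1, h2, -⟩ := hL
      apply (side_lt hF h1 e.fwd).1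
      have h3 : e.a ++ side e.r e.fwd ++ e.b = [] := h2
      have h4 := (List.append_eq_nil_iff.1 h3).1
      exact (List.append_eq_nil_iff.1 h4).2
  have e1 := key L hL
  have e2 := key L' hL'
  subst e1
  subst e2
  rfl

theorem end_iso {K : ℕ} {F : List (List ℕ × List ℕ)} (hF : RelOK K F) {x : List ℕ}
    (hx : ∀ n ∈ x, n < K) :
    Nonempty (DiagramGroup {r | r ∈ F} (x ++ [K]) ≃* DiagramGroup {r | r ∈ F} x) := by
  obtain ⟨e⟩ := uni_iso (K1 := K) (K2 := 1) (F1 := F) (F2 := []) hF (by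
    intro r hr; simp at hr) (x := x) (y := [0]) hx
  have h1 : uni K F [] = F := by simp [uni]
  have h2 : [0].map (fun n => n + K) = [K] := by simp
  rw [h1, h2] at e
  have := triv_inp
  let _ : Unique (DiagramGroup {r : List ℕ × List ℕ | r ∈
    ([] : List (List ℕ × List ℕ))} [0]) := uniqueOfSubsingleton 1
  exact ⟨e.trans MulEquiv.prodUnique⟩

/-- **Separators.** -/
theorem sep_iso {K : ℕ} {F : List (List ℕ × List ℕ)} (hF : RelOK K F) {x y : List ℕ}
    (hx : ∀ n ∈ x, n < K) (hy : ∀ n ∈ y, n ≤ K) :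
    Nonempty (DiagramGroup {r | r ∈ F} (x ++ K :: y) ≃*
      DiagramGroup {r | r ∈ F} x × DiagramGroup {r | r ∈ F} y) := by
  obtain ⟨e1⟩ := le_iso hF hx hy
  obtain ⟨e2⟩ := uni_iso (K1 := K + 1) (K2 := K) (F1 := F) (F2 := F)
    (relOK_mono (Nat.le_succ K) hF) hF (x := x ++ [K]) (y := y) (by
      intro n hn
      rcases List.mem_append.1 hn with hn | hn
      · exact lt_of_lt_of_le (hx n hn) (Nat.le_succ _)
      · rw [List.mem_singleton] at hn
        omega)
  obtain ⟨e3⟩ := end_iso hF hx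
  have h : (x ++ [K]) ++ y.map (fun n => n + (K + 1)) = x ++ K :: y.map (sh K) := by simp
  rw [h] at e2
  exact ⟨(e1.trans e2).trans (MulEquiv.prodCongr e3 (MulEquiv.refl _))⟩

theorem left_iso {K1 K2 : ℕ} {F1 F2 : List (List ℕ × List ℕ)} (h1 : RelOK K1 F1)
    (h2 : RelOK K2 F2) {x : List ℕ} (hx : ∀ n ∈ x, n < K1) :
    Nonempty (DiagramGroup {r | r ∈ uni K1 F1 F2} x ≃* DiagramGroup {r | r ∈ F1} x) := by
  obtain ⟨e⟩ := uni_iso h1 h2 (x := x) (y := []) hx
  have h : x ++ ([] : List ℕ).map (fun n => n + K1) = x := by simp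
  rw [h] at e
  have := nil_triv h2
  let _ : Unique (DiagramGroup {r | r ∈ F2} []) := uniqueOfSubsingleton 1
  exact ⟨e.trans MulEquiv.prodUnique⟩

theorem right_iso {K1 K2 : ℕ} {F1 F2 : List (List ℕ × List ℕ)} (h1 : RelOK K1 F1)
    (h2 : RelOK K2 F2) (y : List ℕ) :
    Nonempty (DiagramGroup {r | r ∈ uni K1 F1 F2} (y.map (fun n => n + K1)) ≃*
      DiagramGroup {r | r ∈ F2} y) := by
  obtain ⟨e⟩ := uni_iso h1 h2 (x := []) (y := y) (by simp)
  rw [List.nil_append] at e
  have := nil_triv h1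
  let _ : Unique (DiagramGroup {r | r ∈ F1} []) := uniqueOfSubsingleton 1
  exact ⟨e.trans MulEquiv.uniqueProd⟩

/-- `ℤ ^ n × ℤ = ℤ ^ (n + 1)` -/
def consIso (n : ℕ) : Multiplicative (Fin n → ℤ) × Multiplicative ℤ ≃*
    Multiplicative (Fin (n + 1) → ℤ) where
  toFun p := Multiplicative.ofAdd (Fin.cons (Multiplicative.toAdd p.2)
    (Multiplicative.toAdd p.1) : Fin (n + 1) → ℤ)
  invFun q := (Multiplicative.ofAdd (Fin.tail (Multiplicative.toAdd q)),
    Multiplicative.ofAdd (Multiplicative.toAdd q 0))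
  left_inv p := by simp
  right_inv q := by simp
  map_mul' p q := by
    apply Multiplicative.toAdd.injective
    funext i
    refine Fin.cases ?_ (fun j => ?_) i
    · simp
    · simp

/-- products of infinite cyclic groups and the group of infinite rank -/
def IsPr : ℕ → (ℕ → Prop) → Prop → (G : Type) → [Group G] → Prop
  | 0, _, q, G, _ => (q → Nonempty (G ≃* DiagramGroup {r | r ∈ rin} [0])) ∧
      (¬ q → Subsingleton G)
  | r + 1, p, q, G, _ => ∃ (A B : Type) (_ : Group A) (_ : Group B), Nonempty (G ≃* A × B) ∧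
      (p 0 → Nonempty (A ≃* Multiplicative ℤ)) ∧ (¬ p 0 → Subsingleton A) ∧
      IsPr r (fun i => p (i + 1)) q B

theorem isPr_fin : ∀ (r : ℕ) (p : ℕ → Prop) (q : Prop) {G : Type} [Group G], IsPr r p q G →
    ¬ q → ∀ m, (∀ i, p i ↔ i < m) → Nonempty (G ≃* Multiplicative (Fin (min m r) → ℤ))
  | 0, p, q, G, _, h, hq, m, _ => by
    have := h.2 hq
    let _ : Unique G := uniqueOfSubsingleton 1
    rw [Nat.min_zero]
    exact ⟨MulEquiv.ofUnique⟩
  | r + 1, p, q, G, _, h, hq, m, hp => by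
    obtain ⟨A, B, iA, iB, ⟨e⟩, h1, h2, h3⟩ := h
    cases m with
    | zero =>
      have := h2 (fun h0 => absurd ((hp 0).1 h0) (by omega))
      obtain ⟨e1⟩ := isPr_fin r _ q h3 hq 0 (fun i => by
        rw [hp (i + 1)]
        omega)
      let _ : Unique A := uniqueOfSubsingleton 1
      rw [Nat.zero_min] at e1 ⊢
      exact ⟨(e.trans MulEquiv.uniqueProd).trans e1⟩
    | succ m =>
      obtain ⟨e0⟩ := h1 ((hp 0).2 (by omega))
      obtain ⟨e1⟩ := isPr_fin r _ q h3 hq m (fun i => by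
        rw [hp (i + 1)]
        omega)
      have hm : min (m + 1) (r + 1) = min m r + 1 := by omega
      rw [hm]
      exact ⟨((e.trans (MulEquiv.prodCongr e0 e1)).trans MulEquiv.prodComm).trans (consIso _)⟩

theorem isPr_inf : ∀ (r : ℕ) (p : ℕ → Prop) (q : Prop) {G : Type} [Group G], IsPr r p q G →
    q → (∀ i, ¬ p i) → Nonempty (G ≃* DiagramGroup {r | r ∈ rin} [0])
  | 0, p, q, G, _, h, hq, _ => h.1 hq
  | r + 1, p, q, G, _, h, hq, hp => by
    obtain ⟨A, B, iA, iB, ⟨e⟩, h1, h2, h3⟩ := h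
    have := h2 (hp 0)
    obtain ⟨e1⟩ := isPr_inf r _ q h3 hq (fun i => hp (i + 1))
    let _ : Unique A := uniqueOfSubsingleton 1
    exact ⟨(e.trans MulEquiv.uniqueProd).trans e1⟩

/-- a list of the relations as an input -/
theorem tri_ok : RelOK 3 tri ∧ Rev tri := by
  refine ⟨?_, ?_⟩
  · intro r hr
    have : r = ([0], [1]) ∨ r = ([1], [2]) ∨ r = ([2], [0]) := by simpa [tri] using hr
    rcases this with rfl | rfl | rfl <;> simp
  · intro r hr
    have : r = ([0], [1]) ∨ r = ([1], [2]) ∨ r = ([2], [0]) := by simpa [tri] using hr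
    rcases this with rfl | rfl | rfl <;> simp [tri]

theorem rin_ok : RelOK 4 rin ∧ Rev rin := by
  refine ⟨?_, ?_⟩
  · intro r hr
    have : r = ([0], [0, 1]) ∨ r = ([1], [2]) ∨ r = ([2], [3]) ∨ r = ([3], [1]) := by
      simpa [rin] using hr
    rcases this with rfl | rfl | rfl | rfl <;> simp
  · intro r hr
    have : r = ([0], [0, 1]) ∨ r = ([1], [2]) ∨ r = ([2], [3]) ∨ r = ([3], [1]) := by
      simpa [rin] using hr
    rcases this with rfl | rfl | rfl | rfl <;> simp [rin]

/-- **One presentation for all numbers of machines.** -/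
theorem uniform : ∃ (K : ℕ) (F : List (List ℕ × List ℕ)), (RelOK K F ∧ Rev F) ∧
    ∀ (r : ℕ) (p : ℕ → ℕ → Prop) (q : ℕ → Prop), (∀ i, REPred (p i)) → REPred q →
      ∃ W : ℕ → List ℕ, Computable W ∧ (∀ n, W n ≠ [] ∧ ∀ x ∈ W n, x ≤ K) ∧
        ∀ n, IsPr r (fun i => p i n) (q n) (DiagramGroup {r | r ∈ F} (W n)) := by
  obtain ⟨K1, G1, W1, a1, a2, aP, a3, a4⟩ := mainP 3 tri [0] tri_ok.1 (by simp) tri_ok.2
  obtain ⟨K2, G2, W2, b1, b2, bP, b3, b4⟩ := mainP 4 rin [0] rin_ok.1 (by simp) rin_ok.2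
  have hF : RelOK (K1 + K2) (uni K1 G1 G2) := uni_ok a2 b2
  refine ⟨K1 + K2, uni K1 G1 G2, ⟨hF, uni_rev a2 b2 aP bP⟩, ?_⟩
  intro r
  induction r with
  | zero =>
    intro p q hp hq
    obtain ⟨v, hv, hqv⟩ := Pool.Agent.Helper599.Source.re_reduce q hq
    refine ⟨fun n => (W2 (v n)).map (fun n => n + K1), ?_, ?_, ?_⟩
    · have h3 : Primrec (fun l : List ℕ => l.map (fun n => n + K1)) :=
        Primrec.list_map Primrec.id
          (Primrec.nat_add.comp Primrec.snd (Primrec.const K1)).to₂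
      exact h3.to_comp.comp (b1.comp hv)
    · intro n
      refine ⟨by simpa using (b3 (v n)).1, fun x hx => ?_⟩
      obtain ⟨m, hm, rfl⟩ := List.mem_map.1 hx
      have := (b3 (v n)).2 m hm
      omega
    · intro n
      obtain ⟨e⟩ := right_iso a2 b2 (W2 (v n))
      refine ⟨fun h => ?_, fun h => ?_⟩
      · obtain ⟨e1⟩ := (b4 (v n)).1 ((hqv n).1 h)
        exact ⟨e.trans e1⟩
      · have := (b4 (v n)).2 (fun h' => h ((hqv n).2 h'))
        exact e.toEquiv.subsingleton
  | succ r ih =>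
    intro p q hp hq
    obtain ⟨u, hu, hpu⟩ := Pool.Agent.Helper599.Source.re_reduce (p 0) (hp 0)
    obtain ⟨W, c1, c2, c3⟩ := ih (fun i => p (i + 1)) q (fun i => hp (i + 1)) hq
    have hW1 : ∀ n, ∀ x ∈ W1 n, x < K1 + K2 := fun n x hx =>
      lt_of_lt_of_le ((a3 n).2 x hx) (Nat.le_add_right _ _)
    refine ⟨fun n => W1 (u n) ++ (K1 + K2) :: W n, ?_, ?_, ?_⟩
    · have h1 : Computable (fun n => W1 (u n)) := a1.comp hu
      have h4 : Primrec₂ (fun l l' : List ℕ => l ++ l') := Primrec.list_append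
      have h5 : Primrec (fun l : List ℕ => (K1 + K2) :: l) :=
        Primrec.list_cons.comp (Primrec.const _) Primrec.id
      exact h4.to_comp.comp h1 (h5.to_comp.comp c1)
    · intro n
      refine ⟨by simp, fun x hx => ?_⟩
      rcases List.mem_append.1 hx with hx | hx
      · exact (hW1 _ x hx).le
      · rcases List.mem_cons.1 hx with rfl | hx
        · exact le_refl _
        · exact (c2 n).2 x hx
    · intro n
      obtain ⟨e⟩ := left_iso (x := W1 (u n)) a2 b2 (a3 _).2
      obtain ⟨eT⟩ := tri_iso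
      refine ⟨DiagramGroup {r | r ∈ uni K1 G1 G2} (W1 (u n)),
        DiagramGroup {r | r ∈ uni K1 G1 G2} (W n), inferInstance, inferInstance,
        sep_iso hF (hW1 _) (c2 n).2, fun h => ?_, fun h => ?_, c3 n⟩
      · obtain ⟨e1⟩ := (a4 (u n)).1 ((hpu n).1 h)
        exact ⟨(e.trans e1).trans eT⟩
      · have := (a4 (u n)).2 (fun h' => h ((hpu n).2 h'))
        exact e.toEquiv.subsingleton

/-- the code of a value -/
def cde (v : Option ℕ) : ℕ := v.casesOn 0 (fun m => m + 1)

theorem cde_computable : Computable cde :=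
  (Primrec.option_casesOn Primrec.id (Primrec.const 0)
    (Primrec.succ.comp Primrec.snd).to₂).to_comp

/-- **One presentation for all bounds.** -/
theorem uniform_right : ∃ (K : ℕ) (F : List (List ℕ × List ℕ)), (RelOK K F ∧ Rev F) ∧
    ∀ (r : ℕ) (g : List ℕ →. Option ℕ), Partrec g →
      ∃ w : List ℕ, (w ≠ [] ∧ ∀ x ∈ w, x < K) ∧
        (none ∈ g w → Nonempty (DiagramGroup {r | r ∈ F} w ≃* DiagramGroup {r | r ∈ rin} [0])) ∧
        (∀ m, some m ∈ g w →
          Nonempty (DiagramGroup {r | r ∈ F} w ≃* Multiplicative (Fin (min m r) → ℤ))) ∧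
        (¬ (g w).Dom → Subsingleton (DiagramGroup {r | r ∈ F} w)) := by
  classical
  obtain ⟨K, F, ⟨h1, h1'⟩, h2⟩ := uniform
  let φ : ℕ →. ℕ := fun n => (Denumerable.ofNat Nat.Partrec.Code n).eval n
  have hφ : Partrec φ := by
    have h := Nat.Partrec.Code.eval_part.comp
      (Computable.ofNat Nat.Partrec.Code) (Computable.id (α := ℕ))
    exact h
  have hre : ∀ D : ℕ → Bool, Primrec D → REPred (fun n => ∃ c ∈ φ n, D c = true) := by
    intro D hD
    have h2 : Partrec (fun z : ℕ × ℕ =>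
        (cond (D z.2) (Part.some ()) Part.none : Part Unit)) := by
      refine Partrec.cond ?_ (Computable.const ()) Partrec.none
      exact (hD.comp Primrec.snd).to_comp
    have h1 : Partrec (fun n => (φ n).bind (fun m =>
        (cond (D m) (Part.some ()) Part.none : Part Unit))) :=
      Partrec.bind hφ h2.to₂
    refine (Partrec.dom_re h1).of_eq ?_
    intro n
    constructor
    · intro h
      obtain ⟨m, hm⟩ := h
      cases hv : D ((φ n).get m) with
      | true => exact ⟨_, Part.get_mem m, hv⟩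
      | false => simp [hv] at hm
    · rintro ⟨c, ⟨m, hm⟩, hc⟩
      refine ⟨m, ?_⟩
      simp [hm, hc]
  refine ⟨K + 1, F, ⟨relOK_mono (Nat.le_succ K) h1, h1'⟩, fun r g hg => ?_⟩
  obtain ⟨W, w1, w2, w3⟩ := h2 r (fun i n => ∃ c ∈ φ n, decide (i + 2 ≤ c) = true)
    (fun n => ∃ c ∈ φ n, decide (c = 0) = true)
    (fun i => hre _ (Primrec.nat_le.decide.comp (Primrec.const (i + 2)) Primrec.id))
    (hre _ (Primrec.eq.decide.comp Primrec.id (Primrec.const 0)))
  have hg' : Partrec (fun w => (g w).map cde) :=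
    hg.map (cde_computable.comp Computable.snd).to₂
  have hgW : Partrec (fun n => (g (W n)).map cde) := hg'.comp w1
  obtain ⟨c, hc⟩ := Nat.Partrec.Code.exists_code.1 (Partrec.nat_iff.1 hgW)
  have hn : φ (Encodable.encode c) = (g (W (Encodable.encode c))).map cde := by
    simp only [φ, Denumerable.ofNat_encode, hc]
  have w3' := w3 (Encodable.encode c)
  refine ⟨W (Encodable.encode c), ⟨(w2 _).1, fun x hx => Nat.lt_succ_of_le ((w2 _).2 x hx)⟩,
    fun hv => ?_, fun m hv => ?_, fun hv => ?_⟩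
  · have hmem : 0 ∈ φ (Encodable.encode c) := by
      rw [hn]
      exact Part.mem_map cde hv
    refine isPr_inf r _ _ w3' ⟨0, hmem, by simp⟩ ?_
    rintro i ⟨c', hc', hi⟩
    have := Part.mem_unique hc' hmem
    subst this
    simp at hi
  · have hmem : m + 1 ∈ φ (Encodable.encode c) := by
      rw [hn]
      exact Part.mem_map cde hv
    refine isPr_fin r _ _ w3' ?_ m ?_
    · rintro ⟨c', hc', hi⟩
      have := Part.mem_unique hc' hmem
      subst this
      simp at hi
    · intro i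
      constructor
      · rintro ⟨c', hc', hi⟩
        have := Part.mem_unique hc' hmem
        subst this
        have h5 : i + 2 ≤ m + 1 := by simpa using hi
        omega
      · intro hi
        exact ⟨m + 1, hmem, by simp; omega⟩
  · have hno : ∀ c', c' ∉ φ (Encodable.encode c) := by
      intro c' hc'
      rw [hn] at hc'
      obtain ⟨v, hv', -⟩ := (Part.mem_map_iff _).1 hc'
      exact hv (Part.dom_iff_mem.2 ⟨v, hv'⟩)
    obtain ⟨e⟩ := isPr_fin r _ _ w3' (by
      rintro ⟨c', hc', -⟩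
      exact hno c' hc') 0 (fun i => ⟨by
        rintro ⟨c', hc', -⟩
        exact absurd hc' (hno c'), fun h => absurd h (Nat.not_lt_zero i)⟩)
    rw [Nat.zero_min] at e
    exact e.toEquiv.subsingleton

end Pool.Agent.Y59.RK
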